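import Pool.Agent.Helper64_RB3.Num

/-!
The criterion for large values.
-/

open Finset

namespace Helper64RB3

theorem exp_sub_sq_le {x d : ℝ} (hx : 0 ≤ x) (hxd : x ≤ d) : Real.exp (x - d ^ 2) ≤ 1 + x := by
  have h1 : x - d ^ 2 ≤ x / (1 + x) := by
    rw [le_div_iff₀ (by linarith)]
    nlinarith [mul_nonneg hx hx, mul_nonneg hx (mul_nonneg hx hx),
      mul_nonneg (sub_nonneg.2 hxd) hx, mul_nonneg hx (sq_nonneg d)]
  have h2 : Real.exp (x / (1 + x)) ≤ 1 + x := by
    have h3 := Real.add_one_le_exp (-(x / (1 + x)))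
    have h4 : -(x / (1 + x)) + 1 = 1 / (1 + x) := by
      have : (1 + x) ≠ 0 := by linarith
      field_simp
      ring
    rw [h4, Real.exp_neg, div_le_iff₀ (by linarith)] at h3
    have h5 := Real.exp_pos (x / (1 + x))
    have h6 : Real.exp (x / (1 + x)) * ((Real.exp (x / (1 + x)))⁻¹ * (1 + x)) = 1 + x := by
      field_simp
    have h7 := mul_le_mul_of_nonneg_left h3 h5.le
    rw [h6] at h7
    linarith
  exact (Real.exp_le_exp.2 h1).trans h2

theorem sum_succ_real (z : ℕ) : ∑ j ∈ range z, ((j : ℝ) + 1) = (z : ℝ) * (z + 1) / 2 := by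
  induction z with
  | zero => simp
  | succ z ih =>
    rw [sum_range_succ, ih]
    push_cast
    ring

/-- the asymptotic case -/
theorem crit_asymp {ε : ℝ} (hε : 0 < ε) :
    ∃ z0 : ℕ, ∀ z, z0 ≤ z → ∀ B : ℕ, (B : ℝ) + 1 ≤ (1 / 2 - ε) * (z : ℝ) ^ 2 → Crit z B := by
  obtain ⟨δ, hδ⟩ : ∃ δ : ℝ, δ = ε / 2 := ⟨_, rfl⟩
  have hδ0 : 0 < δ := by linarith
  obtain ⟨z0, hz0⟩ := exists_nat_gt (3 / δ ^ 6)
  refine ⟨z0 + 1, fun z hz B hB => ?_⟩
  have hzpos : (0 : ℝ) < z := by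
    have : 0 < z := by omega
    exact_mod_cast this
  have hzbig : 3 / δ ^ 6 < z := by
    have : (z0 : ℝ) < z := by
      have h1 : z0 < z := by omega
      exact_mod_cast h1
    linarith
  have hε2 : ε = 2 * δ := by linarith
  rw [hε2] at hB
  have hB0 : (0 : ℝ) ≤ B := Nat.cast_nonneg _
  refine ⟨δ / z, δ / z, by positivity, le_refl _, ?_, ?_⟩
  · have : (0 : ℝ) < δ / z := by positivity
    nlinarith
  · have h1 : (1 + δ / (z : ℝ)) ^ B ≤ Real.exp (δ / z * B) := by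
      have h4 : 1 + δ / (z : ℝ) ≤ Real.exp (δ / (z : ℝ)) := by
        have := Real.add_one_le_exp (δ / (z : ℝ))
        linarith
      calc (1 + δ / (z : ℝ)) ^ B ≤ (Real.exp (δ / (z : ℝ))) ^ B :=
          pow_le_pow_left₀ (by positivity) h4 B
        _ = Real.exp (δ / z * B) := by
          rw [← Real.exp_nat_mul]
          congr 1
          ring
    have h2 : δ / z * B ≤ δ * z / 2 - 2 * δ ^ 2 * z := by
      have h3 : (B : ℝ) ≤ (1 / 2 - 2 * δ) * (z : ℝ) ^ 2 := by linarith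
      calc δ / z * B ≤ δ / z * ((1 / 2 - 2 * δ) * (z : ℝ) ^ 2) :=
          mul_le_mul_of_nonneg_left h3 (by positivity)
        _ = _ := by
          field_simp
    have h3 : ∏ j ∈ range z, Real.exp (δ / z * ((j : ℝ) + 1) - δ ^ 2) ≤
        ∏ j ∈ range z, (1 + δ / (z : ℝ) * ((j : ℝ) + 1)) := by
      apply prod_le_prod
      · intro j _
        exact (Real.exp_pos _).le
      · intro j hj
        have hj' : j + 1 ≤ z := mem_range.1 hj
        have hj'' : (j : ℝ) + 1 ≤ z := by exact_mod_cast hj'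
        apply exp_sub_sq_le (by positivity)
        rw [div_mul_eq_mul_div, div_le_iff₀ hzpos]
        exact mul_le_mul_of_nonneg_left hj'' hδ0.le
    rw [← Real.exp_sum, sum_sub_distrib, ← mul_sum, sum_succ_real, sum_const, card_range,
      nsmul_eq_mul] at h3
    have h5 : δ * z / 2 - δ ^ 2 * z ≤ δ / z * ((z : ℝ) * (z + 1) / 2) - (z : ℝ) * δ ^ 2 := by
      have h6 : δ / z * ((z : ℝ) * (z + 1) / 2) = δ * z / 2 + δ / 2 := by
        field_simp
      rw [h6]
      linarith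
    have h7 : (z : ℝ) ^ 2 / 2 < Real.exp (δ ^ 2 * z) := by
      have h8 := Real.pow_div_factorial_le_exp (δ ^ 2 * z) (by positivity) 3
      refine lt_of_lt_of_le ?_ h8
      have h9 : (Nat.factorial 3 : ℝ) = 6 := by norm_num [Nat.factorial]
      rw [h9, lt_div_iff₀ (by norm_num)]
      rw [div_lt_iff₀ (by positivity)] at hzbig
      have h10 : (δ ^ 2 * (z : ℝ)) ^ 3 = (z * δ ^ 6) * (z : ℝ) ^ 2 := by ring
      rw [h10]
      have h11 : (0 : ℝ) < (z : ℝ) ^ 2 := by positivity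
      nlinarith
    have h8 : (B : ℝ) + 1 ≤ (z : ℝ) ^ 2 / 2 := by
      have : (0 : ℝ) < (z : ℝ) ^ 2 := by positivity
      nlinarith
    calc ((B : ℝ) + 1) * (1 + δ / (z : ℝ)) ^ B ≤
        ((z : ℝ) ^ 2 / 2) * Real.exp (δ * z / 2 - 2 * δ ^ 2 * z) :=
          mul_le_mul h8 (h1.trans (Real.exp_le_exp.2 h2)) (by positivity) (by positivity)
      _ < Real.exp (δ ^ 2 * z) * Real.exp (δ * z / 2 - 2 * δ ^ 2 * z) :=
          mul_lt_mul_of_pos_right h7 (Real.exp_pos _)
      _ = Real.exp (δ * z / 2 - δ ^ 2 * z) := by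
          rw [← Real.exp_add]
          congr 1
          ring
      _ ≤ _ := (Real.exp_le_exp.2 h5).trans h3

end Helper64RB3
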