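import Pool.Agent.Helper64_RB3.Span

/-!
Several free colours, and the main theorem in abstract form.
-/

open Finset

namespace Helper64RB3

variable {β ι ρ : Type*} [DecidableEq β] [DecidableEq ι] [DecidableEq ρ]

section

variable {N : Matroid β} {col : β → ι} {row : β → ρ} {S : ι → Finset β}
  {q : ℕ} {P : Finset ρ} {K : Finset ι} {T T' : Finset β}

omit [DecidableEq β] [DecidableEq ρ] in
theorem state_erase (hT : State N col row S q P K T) {c0 : ι} (h : c0 ∉ T.image col) :
    State N col row S q P (K.erase c0) T := by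
  refine ⟨hT.good, hT.avP, ?_, hT.card⟩
  intro y hy
  exact mem_erase.2 ⟨fun h1 => h (h1 ▸ mem_image_of_mem col hy), hT.inK y hy⟩

/-- one more free colour -/
theorem free_step (H : Hyp N col row S q) (hT : State N col row S q P K T) {c0 : ι}
    (hc0 : c0 ∈ K) (h : c0 ∉ T.image col) :
    sz row S P c0 + (Lv N col row S P (K.erase c0) T).card ≤
      q + (Lv N col row S P K T).card := by
  classical
  have hT' := state_erase hT h
  have hFL := card_Fx_Lv hT'
  have h1 : ((S c0).filter (fun x => row x ∉ (Fx N col row S P (K.erase c0) T).image row ∧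
      row x ∉ P)).card ≤ (Lv N col row S P K T).card := by
    apply card_le_of_subset_closure (N := N)
    · exact (H.hN c0).subset (coe_subset.2 (filter_subset _ _))
    · intro x hx
      obtain ⟨hxS, hxF, hxP⟩ := mem_filter.1 (mem_coe.1 hx)
      have hcx := H.hc c0 x hxS
      obtain ⟨T'', hR, hr⟩ := exists_free hT' hxF
      have hst := reach_state hT' hR
      have hR' : Reach N col row S P K T T'' :=
        reach_mono (Subset.refl _) (erase_subset _ _) hR
      have hc : col x ∉ T''.image col := by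
        rw [hcx]
        intro h1
        obtain ⟨y, hy, hyc⟩ := mem_image.1 h1
        exact (mem_erase.1 (hst.inK y hy)).1 hyc
      exact free_mem_flat H hT hR' (hcx.symm ▸ hxS) (hcx.symm ▸ hc0) hc hr hxP
  have h2 := card_filter_row H c0 ((Fx N col row S P (K.erase c0) T).image row)
  have h3 := card_image_le (s := Fx N col row S P (K.erase c0) T) (f := row)
  have h4 : (S c0).filter (fun x => row x ∉ P) ⊆
      (S c0).filter (fun x => row x ∉ (Fx N col row S P (K.erase c0) T).image row ∧
        row x ∉ P) ∪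
      (S c0).filter (fun x => row x ∈ (Fx N col row S P (K.erase c0) T).image row) := by
    intro x hx
    obtain ⟨hx, hxP⟩ := mem_filter.1 hx
    by_cases ha : row x ∈ (Fx N col row S P (K.erase c0) T).image row
    · exact mem_union_right _ (mem_filter.2 ⟨hx, ha⟩)
    · exact mem_union_left _ (mem_filter.2 ⟨hx, ha, hxP⟩)
  have h5 := card_le_card h4
  have h6 := card_union_le
    ((S c0).filter (fun x => row x ∉ (Fx N col row S P (K.erase c0) T).image row ∧
        row x ∉ P))
    ((S c0).filter (fun x => row x ∈ (Fx N col row S P (K.erase c0) T).image row))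
  unfold sz
  omega

theorem free_steps (H : Hyp N col row S q) (z : ℕ) (hz : ∀ s, q + z ≤ sz row S P s) :
    ∀ (J : ℕ) (K : Finset ι), State N col row S q P K T → K.card = q + 1 + J →
      ∃ K' : Finset ι, State N col row S q P K' T ∧ K'.card = q + 1 ∧
        J * z + (Lv N col row S P K' T).card ≤ (Lv N col row S P K T).card := by
  intro J
  induction J with
  | zero =>
    intro K hT hK
    exact ⟨K, hT, hK, by omega⟩
  | succ J ih =>
    intro K hT hK
    obtain ⟨c0, hc0, hc0T⟩ : ∃ c ∈ K, c ∉ T.image col := by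
      by_contra hno
      push Not at hno
      have h1 : K ⊆ T.image col := hno
      have h2 := card_le_card h1
      have h3 := card_image_le (s := T) (f := col)
      rw [hT.card] at h3
      omega
    have h1 := free_step H hT hc0 hc0T
    have h2 := hz c0
    obtain ⟨K', hK', hcard, hle⟩ := ih (K.erase c0) (state_erase hT hc0T) (by
      rw [card_erase_of_mem hc0]
      omega)
    refine ⟨K', hK', hcard, ?_⟩
    have h3 : (J + 1) * z = J * z + z := by ring
    omega

end

omit [DecidableEq β] [DecidableEq ι] [DecidableEq ρ] in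
theorem good_subset {N : Matroid β} {col : β → ι} {row : β → ρ} {S : ι → Finset β}
    {T T' : Finset β} (h : Good N col row S T) (hs : T' ⊆ T) : Good N col row S T' :=
  ⟨fun y hy => h.mem y (hs hy), h.colinj.mono (coe_subset.2 hs),
    h.rowinj.mono (coe_subset.2 hs), h.ind.subset (coe_subset.2 hs)⟩

/-- the criterion -/
def Crit (z B : ℕ) : Prop :=
  ∃ c c' : ℝ, 0 ≤ c ∧ c ≤ c' ∧ c' * B ≤ 1 + c * (B + 1) ∧
    ((B : ℝ) + 1) * (1 + c) ^ B < ∏ j ∈ range z, (1 + c' * ((j : ℝ) + 1))

/-- the main theorem, abstract form -/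
theorem abstract_main [Fintype ι] (N : Matroid β) (col : β → ι) (row : β → ρ)
    (S : ι → Finset β) (hc : ∀ i, ∀ x ∈ S i, col x = i)
    (hr : ∀ i, Set.InjOn row (S i : Set β)) (hN : ∀ i, N.Indep (S i : Set β))
    (n a z B : ℕ) (hcard : n + a ≤ Fintype.card ι) (hsz : ∀ s, n + z ≤ (S s).card + 1)
    (hB : n ≤ B + 1 + a * z)
    (hcrit : Crit z B ∨ ∃ U : Finset ρ, (∀ i, (S i).image row = U) ∧ n + z ≤ U.card + 1 ∧
      B < bb z) :
    ∃ T, Good N col row S T ∧ T.card = n := by
  classical
  -- a maximal good set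
  have hbd : ∀ T, Good N col row S T → T.card ≤ Fintype.card ι := by
    intro T hT
    have h1 : (T.image col).card = T.card := card_image_of_injOn hT.colinj
    rw [← h1]
    exact card_le_univ _
  have hempty : Good N col row S ∅ := by
    refine ⟨?_, ?_, ?_, ?_⟩
    · intro y hy
      exact absurd hy (notMem_empty y)
    · intro a ha
      exact absurd ha (by simp)
    · intro a ha
      exact absurd ha (by simp)
    · rw [coe_empty]
      exact N.empty_indep
  obtain ⟨q, T, hT, hq, hmax⟩ : ∃ (q : ℕ) (T : Finset β), Good N col row S T ∧ T.card = q ∧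
      ∀ T', Good N col row S T' → T'.card ≤ q := by
    have h1 : ∃ q, ∃ T, Good N col row S T ∧ T.card = q := ⟨0, ∅, hempty, card_empty⟩
    have h2 := Nat.findGreatest_spec (P := fun q => ∃ T, Good N col row S T ∧ T.card = q)
      (Nat.zero_le (Fintype.card ι)) ⟨∅, hempty, card_empty⟩
    obtain ⟨T, hT, hTq⟩ := h2
    refine ⟨_, T, hT, hTq, ?_⟩
    intro T' hT'
    exact Nat.le_findGreatest (hbd T' hT') ⟨T', hT', rfl⟩
  by_cases hnq : n ≤ q
  · obtain ⟨T', hs, hc'⟩ := exists_subset_card_eq (hnq.trans hq.symm.le)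
    exact ⟨T', good_subset hT hs, hc'⟩
  exfalso
  push Not at hnq
  have H : Hyp N col row S q := ⟨hc, hr, hN, hmax⟩
  have hst : State N col row S q ∅ univ T :=
    ⟨hT, fun y _ => notMem_empty _, fun y _ => mem_univ _, hq⟩
  have hsz0 : ∀ s, sz row S ∅ s = (S s).card := by
    intro s
    unfold sz
    congr 1
    apply filter_true_of_mem
    intro x _
    exact notMem_empty _
  have hz : ∀ s, q + z ≤ sz row S ∅ s := by
    intro s
    rw [hsz0]
    have := hsz s
    omega
  obtain ⟨J, hJ⟩ : ∃ J, Fintype.card ι = q + 1 + J := ⟨Fintype.card ι - (q + 1), by omega⟩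
  obtain ⟨K', hK', hK'c, hle⟩ := free_steps H z hz J univ hst (by rw [card_univ, hJ])
  obtain ⟨h, hh⟩ : ∃ h, h = (Lv N col row S ∅ K' T).card := ⟨_, rfl⟩
  have hLq : (Lv N col row S ∅ univ T).card ≤ q := by
    have h1 := card_le_card (Lv_subset (N := N) (col := col) (row := row) (S := S)
      (P := (∅ : Finset ρ)) (K := (univ : Finset ι)) (T := T))
    omega
  have hJa : a * z ≤ J * z := Nat.mul_le_mul_right z (by omega)
  have hhB : h ≤ B := by omega
  rcases hcrit with hcrit | ⟨U, hU, hUc, hBb⟩
  swap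
  · have h1 := span_bound H hK'c U hU (U.card - q) ∅ T hK' (empty_subset _) (by
      rw [card_empty]
      omega)
    have h2 : bb z ≤ bb (U.card - q) := bb_mono (by omega)
    omega
  obtain ⟨c, c', hc0, hcc, hcB, hprod⟩ := hcrit
  have hpot := pot H hc0 hcc hcB (by omega : q < K'.card) _ ∅ T hK' rfl (by omega)
  have hcPl := card_Pl_add hK'
  have hcFx := card_Fx_Lv hK'
  have hc' : 0 ≤ c' := hc0.trans hcc
  have hsum : ∑ s ∈ Pl N col row S ∅ K' T, ph c' (sz row S ∅ s - q) ≤
      ((h : ℝ) + 1) * ph c' z := by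
    have h1 : ∑ s ∈ Pl N col row S ∅ K' T, ph c' (sz row S ∅ s - q) ≤
        ∑ s ∈ Pl N col row S ∅ K' T, ph c' z := by
      apply sum_le_sum
      intro s _
      apply ph_antitone hc'
      have := hz s
      omega
    rw [sum_const, nsmul_eq_mul] at h1
    have h2 : (Pl N col row S ∅ K' T).card = h + 1 := by omega
    rw [h2] at h1
    push_cast at h1
    exact h1
  rw [← hh] at hpot
  have hone : (1 : ℝ) ≤ 1 + c := by linarith
  have h1 : (1 : ℝ) ≤ (1 + c) ^ h * (((h : ℝ) + 1) * ph c' z) :=
    hpot.trans (mul_le_mul_of_nonneg_left hsum (by positivity))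
  have h2 := ph_inv hc' z
  have h3 := ph_pos hc' z
  have h4 : (1 + c) ^ h * ((h : ℝ) + 1) ≤ ((B : ℝ) + 1) * (1 + c) ^ B := by
    have h5 : (1 + c) ^ h ≤ (1 + c) ^ B := pow_le_pow_right₀ hone hhB
    have h6 : (h : ℝ) + 1 ≤ (B : ℝ) + 1 := by
      have : (h : ℝ) ≤ B := by exact_mod_cast hhB
      linarith
    calc (1 + c) ^ h * ((h : ℝ) + 1) ≤ (1 + c) ^ B * ((B : ℝ) + 1) :=
        mul_le_mul h5 h6 (by positivity) (by positivity)
      _ = _ := by ring
  have h5 : (1 + c) ^ h * ((h : ℝ) + 1) * ph c' z < 1 := by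
    calc (1 + c) ^ h * ((h : ℝ) + 1) * ph c' z ≤ ((B : ℝ) + 1) * (1 + c) ^ B * ph c' z :=
        mul_le_mul_of_nonneg_right h4 h3.le
      _ < (∏ j ∈ range z, (1 + c' * ((j : ℝ) + 1))) * ph c' z :=
        mul_lt_mul_of_pos_right hprod h3
      _ = 1 := h2
  nlinarith

end Helper64RB3
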