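import Pool.Agent.Helper64_RB3.Main

/-!
Numerical cases of the criterion.
-/

open Finset

namespace Helper64RB3

theorem crit_mono {z B B' : ℕ} (h : Crit z B) (hB : B' ≤ B) : Crit z B' := by
  obtain ⟨c, c', h0, h1, h2, h3⟩ := h
  refine ⟨c, c', h0, h1, ?_, ?_⟩
  · have h4 : (B' : ℝ) ≤ B := by exact_mod_cast hB
    nlinarith
  · refine lt_of_le_of_lt ?_ h3
    have h4 : (B' : ℝ) ≤ B := by exact_mod_cast hB
    have h5 : (1 + c) ^ B' ≤ (1 + c) ^ B := pow_le_pow_right₀ (by linarith) hB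
    exact mul_le_mul (by linarith) h5 (by positivity) (by positivity)

theorem crit_zero {z : ℕ} (hz : 1 ≤ z) : Crit z 0 := by
  refine ⟨1, 1, by norm_num, le_refl _, by norm_num, ?_⟩
  obtain ⟨w, rfl⟩ : ∃ w, z = w + 1 := ⟨z - 1, by omega⟩
  rw [prod_range_succ']
  have h1 : ∏ _j ∈ range w, (1 : ℝ) ≤ ∏ j ∈ range w, (1 + 1 * (((j + 1 : ℕ) : ℝ) + 1)) := by
    apply prod_le_prod
    · intro j _
      exact zero_le_one
    · intro j _
      have : (0 : ℝ) ≤ ((j + 1 : ℕ) : ℝ) := Nat.cast_nonneg _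
      linarith
  rw [prod_const_one] at h1
  norm_num at h1 ⊢
  linarith

/-- a product of natural numbers -/
def prodN (u v : ℕ) : ℕ → ℕ
  | 0 => 1
  | (j + 1) => prodN u v j * (u + (j + 1) * v)

theorem prodN_eq (u v : ℕ) (hu : 0 < u) (z : ℕ) :
    ((prodN u v z : ℕ) : ℝ) = (u : ℝ) ^ z * ∏ j ∈ range z, (1 + ((v : ℝ) / u) * ((j : ℝ) + 1)) := by
  have hu' : (u : ℝ) ≠ 0 := by positivity
  induction z with
  | zero => simp [prodN]
  | succ z ih =>
    rw [prod_range_succ, pow_succ]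
    have h1 : ((prodN u v (z + 1) : ℕ) : ℝ) =
        ((prodN u v z : ℕ) : ℝ) * ((u : ℝ) + ((z : ℝ) + 1) * v) := by
      simp only [prodN]
      push_cast
      ring
    rw [h1, ih]
    field_simp

theorem small_num : ∀ z < 80, 3 ≤ z →
    ((z * z - 1) / 4 + 1) * (2 * z + 3) ^ ((z * z - 1) / 4) * (2 * z * ((z * z - 1) / 4)) ^ z <
      (2 * z) ^ ((z * z - 1) / 4) *
        prodN (2 * z * ((z * z - 1) / 4)) (2 * z + 3 * ((z * z - 1) / 4 + 1)) z := by
  decide +kernel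

theorem crit_small {z : ℕ} (hz : z < 80) (hz3 : 3 ≤ z) : Crit z ((z * z - 1) / 4) := by
  have h1 := small_num z hz hz3
  obtain ⟨B, hB⟩ : ∃ B, B = (z * z - 1) / 4 := ⟨_, rfl⟩
  rw [← hB] at h1 ⊢
  have hB1 : 1 ≤ B := by
    have : 9 ≤ z * z := by nlinarith
    omega
  have hz0 : (0 : ℝ) < z := by
    have : 0 < z := by omega
    exact_mod_cast this
  have hB0 : (0 : ℝ) < B := by exact_mod_cast hB1
  refine ⟨3 / (2 * z), ((2 * z + 3 * (B + 1) : ℕ) : ℝ) / ((2 * z * B : ℕ) : ℝ), by positivity,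
    ?_, ?_, ?_⟩
  · push_cast
    rw [div_le_div_iff₀ (by positivity) (by positivity)]
    nlinarith [mul_pos hz0 hB0, mul_pos hz0 hz0]
  · push_cast
    apply le_of_eq
    field_simp
  · have hu : 0 < 2 * z * B := by positivity
    have h2 := prodN_eq (2 * z * B) (2 * z + 3 * (B + 1)) hu z
    have h3 : (((B + 1) * (2 * z + 3) ^ B * (2 * z * B) ^ z : ℕ) : ℝ) <
        (((2 * z) ^ B * prodN (2 * z * B) (2 * z + 3 * (B + 1)) z : ℕ) : ℝ) := by
      exact_mod_cast h1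
    rw [Nat.cast_mul ((2 * z) ^ B), h2] at h3
    push_cast at h3 ⊢
    have h4 : (1 + 3 / (2 * (z : ℝ))) ^ B = (2 * (z : ℝ) + 3) ^ B / (2 * (z : ℝ)) ^ B := by
      rw [← div_pow]
      congr 1
      field_simp
    rw [h4]
    have hp1 : (0 : ℝ) < (2 * (z : ℝ)) ^ B := by positivity
    have hp2 : (0 : ℝ) < (2 * (z : ℝ) * (B : ℝ)) ^ z := by positivity
    rw [← mul_div_assoc, div_lt_iff₀ hp1]
    have h5 := lt_of_mul_lt_mul_right (a := (2 * (z : ℝ) * (B : ℝ)) ^ z) (by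
      calc ((B : ℝ) + 1) * (2 * (z : ℝ) + 3) ^ B * (2 * (z : ℝ) * (B : ℝ)) ^ z < _ := h3
        _ = ((∏ j ∈ range z, (1 + (2 * (z : ℝ) + 3 * ((B : ℝ) + 1)) / (2 * (z : ℝ) * (B : ℝ)) *
            ((j : ℝ) + 1))) * (2 * (z : ℝ)) ^ B) * (2 * (z : ℝ) * (B : ℝ)) ^ z := by ring) hp2.le
    exact h5

/-- the large values: a numerical inequality -/
theorem large_num {z : ℕ} (hz : 80 ≤ z) : (z ^ 2 + 4) ^ 2 * 1649 ^ z * 2 < 48 * 2000 ^ z := by
  induction z, hz using Nat.le_induction with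
  | base => decide +kernel
  | succ z hz ih =>
    have h1 : ((z + 1) ^ 2 + 4) ^ 2 * 1649 ≤ (z ^ 2 + 4) ^ 2 * 2000 := by
      obtain ⟨t, rfl⟩ : ∃ t, z = 80 + t := ⟨z - 80, by omega⟩
      have h2 : 10 * ((80 + t + 1) ^ 2 + 4) ≤ 11 * ((80 + t) ^ 2 + 4) := by
        nlinarith
      have h3 : (10 * ((80 + t + 1) ^ 2 + 4)) ^ 2 ≤ (11 * ((80 + t) ^ 2 + 4)) ^ 2 :=
        Nat.pow_le_pow_left h2 2
      nlinarith
    calc ((z + 1) ^ 2 + 4) ^ 2 * 1649 ^ (z + 1) * 2 =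
        (((z + 1) ^ 2 + 4) ^ 2 * 1649) * (1649 ^ z * 2) := by ring
      _ ≤ ((z ^ 2 + 4) ^ 2 * 2000) * (1649 ^ z * 2) := Nat.mul_le_mul_right _ h1
      _ = ((z ^ 2 + 4) ^ 2 * 1649 ^ z * 2) * 2000 := by ring
      _ < (48 * 2000 ^ z) * 2000 := Nat.mul_lt_mul_of_pos_right ih (by norm_num)
      _ = _ := by ring

/-- a lower bound for the product -/
theorem prod_sq_lower {z : ℕ} (hz : 1 ≤ z) :
    (3 / 2 : ℝ) * 2 ^ z ≤ (∏ j ∈ range z, (1 + (1 / (z : ℝ)) * ((j : ℝ) + 1))) ^ 2 := by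
  have hz0 : (0 : ℝ) < z := by exact_mod_cast hz
  have h1 : ∏ j ∈ range z, (1 + (1 / (z : ℝ)) * (((z - 1 - j : ℕ) : ℝ) + 1)) =
      ∏ j ∈ range z, (1 + (1 / (z : ℝ)) * ((j : ℝ) + 1)) :=
    prod_range_reflect (fun j : ℕ => 1 + (1 / (z : ℝ)) * ((j : ℝ) + 1)) z
  have h2 : (∏ j ∈ range z, (1 + (1 / (z : ℝ)) * ((j : ℝ) + 1))) ^ 2 =
      ∏ j ∈ range z, ((1 + (1 / (z : ℝ)) * ((j : ℝ) + 1)) *
        (1 + (1 / (z : ℝ)) * (((z - 1 - j : ℕ) : ℝ) + 1))) := by
    rw [prod_mul_distrib, h1, sq]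
  rw [h2]
  have h3 : ∏ _j ∈ range z, (2 + 1 / (z : ℝ)) ≤
      ∏ j ∈ range z, ((1 + (1 / (z : ℝ)) * ((j : ℝ) + 1)) *
        (1 + (1 / (z : ℝ)) * (((z - 1 - j : ℕ) : ℝ) + 1))) := by
    apply prod_le_prod
    · intro j _
      positivity
    · intro j hj
      have hj' : j < z := mem_range.1 hj
      have h4 : ((z - 1 - j : ℕ) : ℝ) = (z : ℝ) - 1 - j := by
        have h5 : z - 1 - j = z - (1 + j) := by omega
        rw [h5, Nat.cast_sub (by omega)]
        push_cast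
        ring
      rw [h4]
      have h6 : (1 : ℝ) / z * ((j : ℝ) + 1) + 1 / z * ((z : ℝ) - 1 - j + 1) = 1 + 1 / z := by
        field_simp
        ring
      have h7 : (0 : ℝ) ≤ 1 / z * ((j : ℝ) + 1) := by positivity
      have h8 : (0 : ℝ) ≤ 1 / z * ((z : ℝ) - 1 - j + 1) := by
        have : (j : ℝ) ≤ z := by exact_mod_cast hj'.le
        have : (0 : ℝ) ≤ (z : ℝ) - 1 - j + 1 := by linarith
        positivity
      nlinarith [mul_nonneg h7 h8]
  rw [prod_const, card_range] at h3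
  refine le_trans ?_ h3
  have h4 : (2 + 1 / (z : ℝ)) ^ z = 2 ^ z * (1 + 1 / (2 * (z : ℝ))) ^ z := by
    rw [← mul_pow]
    congr 1
    field_simp
  rw [h4]
  have h5 : 1 + (z : ℝ) * (1 / (2 * (z : ℝ))) ≤ (1 + 1 / (2 * (z : ℝ))) ^ z :=
    one_add_mul_le_pow (by
      have : (0 : ℝ) < 1 / (2 * (z : ℝ)) := by positivity
      linarith) z
  have h6 : (z : ℝ) * (1 / (2 * (z : ℝ))) = 1 / 2 := by
    field_simp
  rw [h6] at h5
  have h7 : (0 : ℝ) < 2 ^ z := by positivity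
  nlinarith

theorem crit_large {z B : ℕ} (hz : 80 ≤ z) (hB : 4 * B < z ^ 2) : Crit z B := by
  have hz0 : (0 : ℝ) < z := by
    have : 0 < z := by omega
    exact_mod_cast this
  have hB' : 4 * (B : ℝ) < (z : ℝ) ^ 2 := by exact_mod_cast hB
  refine ⟨1 / z, 1 / z, by positivity, le_refl _, ?_, ?_⟩
  · have : (0 : ℝ) < 1 / z := by positivity
    nlinarith
  · have h1 := prod_sq_lower (z := z) (by omega)
    have h2 : (0 : ℝ) ≤ ∏ j ∈ range z, (1 + (1 / (z : ℝ)) * ((j : ℝ) + 1)) := by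
      apply prod_nonneg
      intro j _
      positivity
    refine lt_of_pow_lt_pow_left₀ 2 h2 (lt_of_lt_of_le ?_ h1)
    have h3 : (1 + 1 / (z : ℝ)) ^ B ≤ Real.exp ((z : ℝ) / 4) := by
      have h4 : 1 + 1 / (z : ℝ) ≤ Real.exp (1 / (z : ℝ)) := by
        have := Real.add_one_le_exp (1 / (z : ℝ))
        linarith
      calc (1 + 1 / (z : ℝ)) ^ B ≤ (Real.exp (1 / (z : ℝ))) ^ B :=
          pow_le_pow_left₀ (by positivity) h4 B
        _ = Real.exp ((B : ℝ) * (1 / (z : ℝ))) := by rw [← Real.exp_nat_mul]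
        _ ≤ _ := by
          apply Real.exp_le_exp.2
          rw [mul_one_div, div_le_div_iff₀ hz0 (by norm_num)]
          nlinarith
    have h5 : Real.exp ((z : ℝ) / 4) ^ 2 ≤ (1649 / 1000 : ℝ) ^ z := by
      have h6 : Real.exp ((z : ℝ) / 4) ^ 2 = (Real.exp (1 / 2)) ^ z := by
        rw [← Real.exp_nat_mul, ← Real.exp_nat_mul]
        congr 1
        push_cast
        ring
      rw [h6]
      apply pow_le_pow_left₀ (Real.exp_pos _).le
      have h7 : Real.exp (1 / 2) ^ 2 = Real.exp 1 := by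
        rw [← Real.exp_nat_mul]
        congr 1
        norm_num
      have h8 := Real.exp_one_lt_d9
      have h9 : Real.exp (1 / 2) ^ 2 ≤ (1649 / 1000 : ℝ) ^ 2 := by
        rw [h7]
        norm_num at h8 ⊢
        linarith
      exact le_of_sq_le_sq h9 (by norm_num)
    have h10 : (((B : ℝ) + 1) * (1 + 1 / (z : ℝ)) ^ B) ^ 2 ≤
        (((z : ℝ) ^ 2 + 4) / 4) ^ 2 * (1649 / 1000 : ℝ) ^ z := by
      rw [mul_pow]
      apply mul_le_mul _ _ (by positivity) (by positivity)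
      · apply pow_le_pow_left₀ (by positivity)
        linarith
      · exact (pow_le_pow_left₀ (by positivity) h3 2).trans h5
    refine lt_of_le_of_lt h10 ?_
    have h11 := large_num hz
    have h12 : (((z ^ 2 + 4) ^ 2 * 1649 ^ z * 2 : ℕ) : ℝ) < ((48 * 2000 ^ z : ℕ) : ℝ) := by
      exact_mod_cast h11
    push_cast at h12
    have h13 : (1649 / 1000 : ℝ) ^ z = 1649 ^ z / 1000 ^ z := by rw [div_pow]
    have h14 : (2000 : ℝ) ^ z = 2 ^ z * 1000 ^ z := by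
      rw [← mul_pow]
      norm_num
    rw [h13]
    rw [h14] at h12
    have h15 : (0 : ℝ) < 1000 ^ z := by positivity
    rw [← mul_div_assoc, div_lt_iff₀ h15]
    nlinarith

/-- the explicit case -/
theorem crit_explicit {z B : ℕ} (hz : 1 ≤ z) (hB : 4 * B < z ^ 2) : Crit z B := by
  by_cases h80 : 80 ≤ z
  · exact crit_large h80 hB
  · by_cases h3 : 3 ≤ z
    · apply crit_mono (crit_small (by omega) h3)
      have : z * z = z ^ 2 := by ring
      omega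
    · have h1 : B = 0 := by
        have : z ≤ 2 := by omega
        interval_cases z
        · omega
        · omega
      rw [h1]
      exact crit_zero hz

end Helper64RB3
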