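import Mathlib

/-!
Recycled exchanges for a partition matroid (rows) and an arbitrary matroid.
-/

open Finset

namespace Helper64RB3

variable {β ι ρ : Type*} [DecidableEq β] [DecidableEq ι] [DecidableEq ρ]

/-- rainbow, injective on rows, independent -/
structure Good (N : Matroid β) (col : β → ι) (row : β → ρ) (S : ι → Finset β)
    (T : Finset β) : Prop where
  mem : ∀ y ∈ T, y ∈ S (col y)
  colinj : Set.InjOn col (T : Set β)
  rowinj : Set.InjOn row (T : Set β)
  ind : N.Indep (T : Set β)

/-- the standing hypotheses -/
structure Hyp (N : Matroid β) (col : β → ι) (row : β → ρ) (S : ι → Finset β)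
    (q : ℕ) : Prop where
  hc : ∀ i, ∀ x ∈ S i, col x = i
  hr : ∀ i, Set.InjOn row (S i : Set β)
  hN : ∀ i, N.Indep (S i : Set β)
  hmax : ∀ T, Good N col row S T → T.card ≤ q

/-- a state -/
structure State (N : Matroid β) (col : β → ι) (row : β → ρ) (S : ι → Finset β)
    (q : ℕ) (P : Finset ρ) (K : Finset ι) (T : Finset β) : Prop where
  good : Good N col row S T
  avP : ∀ y ∈ T, row y ∉ P
  inK : ∀ y ∈ T, col y ∈ K
  card : T.card = q

/-- a move -/
def Move (N : Matroid β) (col : β → ι) (row : β → ρ) (S : ι → Finset β)
    (P : Finset ρ) (K : Finset ι) (T T' : Finset β) : Prop :=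
  ∃ x y, x ∈ S (col x) ∧ col x ∈ K ∧ col x ∉ T.image col ∧ row x ∉ T.image row ∧
    row x ∉ P ∧ y ∈ T ∧ N.Indep ((insert x (T.erase y) : Finset β) : Set β) ∧
    T' = insert x (T.erase y)

/-- reachable states -/
def Reach (N : Matroid β) (col : β → ι) (row : β → ρ) (S : ι → Finset β)
    (P : Finset ρ) (K : Finset ι) : Finset β → Finset β → Prop :=
  Relation.ReflTransGen (Move N col row S P K)

section

variable {N : Matroid β} {col : β → ι} {row : β → ρ} {S : ι → Finset β}
  {q : ℕ} {P : Finset ρ} {K : Finset ι} {T T' : Finset β}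

omit [DecidableEq β] in
theorem notMem_of_col {x : β} (h : col x ∉ T.image col) : x ∉ T :=
  fun hx => h (mem_image_of_mem _ hx)

theorem move_state (hT : State N col row S q P K T) (h : Move N col row S P K T T') :
    State N col row S q P K T' := by
  obtain ⟨x, y, hxS, hxK, hxc, hxr, hxP, hy, hind, rfl⟩ := h
  have hxT : x ∉ T := notMem_of_col hxc
  refine ⟨⟨?_, ?_, ?_, hind⟩, ?_, ?_, ?_⟩
  · intro w hw
    rcases mem_insert.1 hw with rfl | hw
    · exact hxS
    · exact hT.good.mem w (mem_of_mem_erase hw)
  · intro a ha b hb hab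
    have ha' := mem_insert.1 (mem_coe.1 ha)
    have hb' := mem_insert.1 (mem_coe.1 hb)
    rcases ha' with rfl | ha'
    · rcases hb' with rfl | hb'
      · rfl
      · exact absurd (mem_image.2 ⟨b, mem_of_mem_erase hb', hab.symm⟩) hxc
    · rcases hb' with rfl | hb'
      · exact absurd (mem_image.2 ⟨a, mem_of_mem_erase ha', hab⟩) hxc
      · exact hT.good.colinj (mem_coe.2 (mem_of_mem_erase ha'))
          (mem_coe.2 (mem_of_mem_erase hb')) hab
  · intro a ha b hb hab
    have ha' := mem_insert.1 (mem_coe.1 ha)
    have hb' := mem_insert.1 (mem_coe.1 hb)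
    rcases ha' with rfl | ha'
    · rcases hb' with rfl | hb'
      · rfl
      · exact absurd (mem_image.2 ⟨b, mem_of_mem_erase hb', hab.symm⟩) hxr
    · rcases hb' with rfl | hb'
      · exact absurd (mem_image.2 ⟨a, mem_of_mem_erase ha', hab⟩) hxr
      · exact hT.good.rowinj (mem_coe.2 (mem_of_mem_erase ha'))
          (mem_coe.2 (mem_of_mem_erase hb')) hab
  · intro w hw
    rcases mem_insert.1 hw with rfl | hw
    · exact hxP
    · exact hT.avP w (mem_of_mem_erase hw)
  · intro w hw
    rcases mem_insert.1 hw with rfl | hw
    · exact hxK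
    · exact hT.inK w (mem_of_mem_erase hw)
  · have h1 : x ∉ T.erase y := fun h => hxT (mem_of_mem_erase h)
    rw [card_insert_of_notMem h1, card_erase_add_one hy, hT.card]

theorem reach_state (hT : State N col row S q P K T) (h : Reach N col row S P K T T') :
    State N col row S q P K T' := by
  induction h with
  | refl => exact hT
  | tail _ hm ih => exact move_state ih hm

theorem reach_mono {P' : Finset ρ} {K' : Finset ι} (hP : P ⊆ P') (hK : K' ⊆ K)
    (h : Reach N col row S P' K' T T') : Reach N col row S P K T T' := by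
  induction h with
  | refl => exact Relation.ReflTransGen.refl
  | tail _ hm ih =>
    obtain ⟨x, y, h1, h2, h3, h4, h5, h6, h7, h8⟩ := hm
    exact Relation.ReflTransGen.tail ih
      ⟨x, y, h1, hK h2, h3, h4, fun h => h5 (hP h), h6, h7, h8⟩

open Classical in
/-- the elements of `T` which are in all reachable states -/
noncomputable def Fx (N : Matroid β) (col : β → ι) (row : β → ρ) (S : ι → Finset β)
    (P : Finset ρ) (K : Finset ι) (T : Finset β) : Finset β :=
  T.filter (fun y => ∀ T', Reach N col row S P K T T' → y ∈ T')

/-- the live elements of `T` -/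
noncomputable def Lv (N : Matroid β) (col : β → ι) (row : β → ρ) (S : ι → Finset β)
    (P : Finset ρ) (K : Finset ι) (T : Finset β) : Finset β :=
  T \ Fx N col row S P K T

theorem Fx_subset : Fx N col row S P K T ⊆ T := by
  classical
  exact filter_subset _ _

theorem Lv_subset : Lv N col row S P K T ⊆ T := sdiff_subset

theorem mem_Fx {y : β} : y ∈ Fx N col row S P K T ↔
    ∀ T', Reach N col row S P K T T' → y ∈ T' := by
  classical
  unfold Fx
  rw [mem_filter]
  constructor
  · rintro ⟨_, h⟩
    exact h
  · intro h
    exact ⟨h T Relation.ReflTransGen.refl, h⟩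

theorem card_Fx_add : (Fx N col row S P K T).card + (Lv N col row S P K T).card = T.card := by
  unfold Lv
  have h := card_sdiff_add_card_eq_card (Fx_subset (N := N) (col := col) (row := row) (S := S)
    (P := P) (K := K) (T := T))
  omega

/-- a blocked element lies in the span of the elements it can replace -/
theorem mem_closure_repl {T : Finset β} {x : β} (hT : N.Indep (T : Set β)) (hx : x ∉ T)
    (hxE : x ∈ N.E) (hdep : ¬ N.Indep (insert x (T : Set β))) :
    x ∈ N.closure {y | y ∈ T ∧ N.Indep ((insert x (T.erase y) : Finset β) : Set β)} := by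
  have hxT : x ∉ (T : Set β) := by simpa using hx
  have hcl : x ∈ N.closure (T : Set β) := by
    rw [hT.mem_closure_iff_of_notMem hxT]
    exact ⟨hdep, Set.insert_subset hxE hT.subset_ground⟩
  have hC := hT.fundCircuit_isCircuit hcl hxT
  have h1 := hC.mem_closure_sdiff_singleton_of_mem (N.mem_fundCircuit x T)
  refine N.closure_subset_closure ?_ h1
  rintro y ⟨hyC, hyx⟩
  have hyx' : y ≠ x := by simpa using hyx
  have hyT : y ∈ T := by
    have := N.fundCircuit_subset_insert x T hyC
    rcases Set.mem_insert_iff.1 this with h | h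
    · exact absurd h hyx'
    · simpa using h
  refine ⟨hyT, ?_⟩
  have h2 := (hT.mem_fundCircuit_iff hcl hxT).1 hyC
  refine h2.subset ?_
  intro w hw
  have hw' := mem_insert.1 (mem_coe.1 hw)
  rcases hw' with rfl | hw'
  · exact ⟨Set.mem_insert _ _, by simpa using hyx'.symm⟩
  · exact ⟨Set.mem_insert_of_mem _ (mem_coe.2 (mem_of_mem_erase hw')),
      by simpa using ne_of_mem_erase hw'⟩

/-- maximality: a free element is blocked -/
theorem blocked (H : Hyp N col row S q) (hT : State N col row S q P K T) {x : β}
    (hxS : x ∈ S (col x)) (hxc : col x ∉ T.image col) (hxr : row x ∉ T.image row) :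
    ¬ N.Indep (insert x (T : Set β)) := by
  intro hind
  have hxT : x ∉ T := notMem_of_col hxc
  have hG : Good N col row S (insert x T) := by
    refine ⟨?_, ?_, ?_, ?_⟩
    · intro w hw
      rcases mem_insert.1 hw with rfl | hw
      · exact hxS
      · exact hT.good.mem w hw
    · intro a ha b hb hab
      have ha' := mem_insert.1 (mem_coe.1 ha)
      have hb' := mem_insert.1 (mem_coe.1 hb)
      rcases ha' with rfl | ha'
      · rcases hb' with rfl | hb'
        · rfl
        · exact absurd (mem_image.2 ⟨b, hb', hab.symm⟩) hxc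
      · rcases hb' with rfl | hb'
        · exact absurd (mem_image.2 ⟨a, ha', hab⟩) hxc
        · exact hT.good.colinj (mem_coe.2 ha') (mem_coe.2 hb') hab
    · intro a ha b hb hab
      have ha' := mem_insert.1 (mem_coe.1 ha)
      have hb' := mem_insert.1 (mem_coe.1 hb)
      rcases ha' with rfl | ha'
      · rcases hb' with rfl | hb'
        · rfl
        · exact absurd (mem_image.2 ⟨b, hb', hab.symm⟩) hxr
      · rcases hb' with rfl | hb'
        · exact absurd (mem_image.2 ⟨a, ha', hab⟩) hxr
        · exact hT.good.rowinj (mem_coe.2 ha') (mem_coe.2 hb') hab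
    · rw [coe_insert]
      exact hind
  have h1 := H.hmax _ hG
  rw [card_insert_of_notMem hxT, hT.card] at h1
  omega

theorem free_mem_closure_repl (H : Hyp N col row S q) (hT : State N col row S q P K T) {x : β}
    (hxS : x ∈ S (col x)) (hxc : col x ∉ T.image col) (hxr : row x ∉ T.image row) :
    x ∈ N.closure {y | y ∈ T ∧ N.Indep ((insert x (T.erase y) : Finset β) : Set β)} := by
  refine mem_closure_repl hT.good.ind (notMem_of_col hxc) ?_ (blocked H hT hxS hxc hxr)
  exact (H.hN (col x)).subset_ground (mem_coe.2 hxS)

/-- replaceable elements are not fixed -/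
theorem repl_notMem_Fx (hR : Reach N col row S P K T T') {x y : β}
    (hxS : x ∈ S (col x)) (hxK : col x ∈ K) (hxc : col x ∉ T'.image col)
    (hxr : row x ∉ T'.image row) (hxP : row x ∉ P) (hy : y ∈ T')
    (hind : N.Indep ((insert x (T'.erase y) : Finset β) : Set β)) :
    y ∉ Fx N col row S P K T := by
  intro hF
  have hm : Move N col row S P K T' (insert x (T'.erase y)) :=
    ⟨x, y, hxS, hxK, hxc, hxr, hxP, hy, hind, rfl⟩
  have h1 := mem_Fx.1 hF _ (Relation.ReflTransGen.tail hR hm)
  rcases mem_insert.1 h1 with h | h
  · exact hxc (h ▸ mem_image_of_mem col hy)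
  · exact (notMem_erase y T') h

/-- a free element at a reachable state lies in the span of its live part -/
theorem free_mem_closure_sdiff (H : Hyp N col row S q) (hT : State N col row S q P K T)
    (hR : Reach N col row S P K T T') {x : β}
    (hxS : x ∈ S (col x)) (hxK : col x ∈ K) (hxc : col x ∉ T'.image col)
    (hxr : row x ∉ T'.image row) (hxP : row x ∉ P) :
    x ∈ N.closure ((T' \ Fx N col row S P K T : Finset β) : Set β) := by
  refine N.closure_subset_closure ?_
    (free_mem_closure_repl H (reach_state hT hR) hxS hxc hxr)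
  rintro y ⟨hy, hind⟩
  rw [coe_sdiff]
  exact ⟨mem_coe.2 hy, fun h => repl_notMem_Fx hR hxS hxK hxc hxr hxP hy hind (mem_coe.1 h)⟩

theorem closure_live (H : Hyp N col row S q) (hT : State N col row S q P K T)
    (hR : Reach N col row S P K T T') :
    ((T' \ Fx N col row S P K T : Finset β) : Set β) ⊆
      N.closure ((Lv N col row S P K T : Finset β) : Set β) := by
  induction hR with
  | refl =>
    have h1 : ((T \ Fx N col row S P K T : Finset β) : Set β) ⊆ N.E :=
      (hT.good.ind.subset (coe_subset.2 sdiff_subset)).subset_ground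
    exact N.subset_closure _ h1
  | @tail A B hA hm ih =>
    obtain ⟨x, y, hxS, hxK, hxc, hxr, hxP, hy, hind, rfl⟩ := hm
    have hx := free_mem_closure_sdiff H hT hA hxS hxK hxc hxr hxP
    have hx' : x ∈ N.closure ((Lv N col row S P K T : Finset β) : Set β) := by
      have h2 := N.closure_subset_closure ih hx
      rwa [N.closure_closure] at h2
    intro w hw
    rw [mem_coe, mem_sdiff, mem_insert] at hw
    rcases hw.1 with rfl | h
    · exact hx'
    · apply ih
      rw [mem_coe, mem_sdiff]
      exact ⟨mem_of_mem_erase h, hw.2⟩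

/-- a free element at a reachable state lies in the fixed flat -/
theorem free_mem_flat (H : Hyp N col row S q) (hT : State N col row S q P K T)
    (hR : Reach N col row S P K T T') {x : β}
    (hxS : x ∈ S (col x)) (hxK : col x ∈ K) (hxc : col x ∉ T'.image col)
    (hxr : row x ∉ T'.image row) (hxP : row x ∉ P) :
    x ∈ N.closure ((Lv N col row S P K T : Finset β) : Set β) := by
  have h2 := N.closure_subset_closure (closure_live H hT hR)
    (free_mem_closure_sdiff H hT hR hxS hxK hxc hxr hxP)
  rwa [N.closure_closure] at h2

omit [DecidableEq β] in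
/-- an independent set inside the span of a finite set -/
theorem card_le_of_subset_closure {A B : Finset β} (hA : N.Indep (A : Set β))
    (h : (A : Set β) ⊆ N.closure (B : Set β)) : A.card ≤ B.card := by
  have h1 := hA.encard_le_eRk_of_subset h
  rw [N.eRk_closure_eq] at h1
  have h2 := h1.trans (N.eRk_le_encard _)
  rw [Set.encard_coe_eq_coe_finsetCard, Set.encard_coe_eq_coe_finsetCard] at h2
  exact_mod_cast h2

/-- a live element is removed at some moment: its colour becomes free -/
theorem exists_col_free (hT : State N col row S q P K T) {y : β}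
    (hy : y ∈ Lv N col row S P K T) :
    ∃ T', Reach N col row S P K T T' ∧ col y ∉ T'.image col := by
  by_contra hno
  have hno' : ∀ T', Reach N col row S P K T T' → col y ∈ T'.image col := by
    intro T' h
    by_contra h'
    exact hno ⟨T', h, h'⟩
  have hall : ∀ T', Reach N col row S P K T T' → y ∈ T' := by
    intro T' h
    induction h with
    | refl => exact Lv_subset hy
    | @tail A B hA hm ih =>
      have hstB := reach_state hT (Relation.ReflTransGen.tail hA hm)
      have hB := hno' B (Relation.ReflTransGen.tail hA hm)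
      obtain ⟨x, w, hxS, hxK, hxc, hxr, hxP, hw, hind, rfl⟩ := hm
      by_cases hyw : y = w
      · exfalso
        subst hyw
        obtain ⟨v, hv, hvc⟩ := mem_image.1 hB
        rcases mem_insert.1 hv with rfl | hv
        · exact hxc (hvc ▸ mem_image_of_mem col hw)
        · have h1 := (reach_state hT hA).good.colinj (mem_coe.2 (mem_of_mem_erase hv))
            (mem_coe.2 hw) hvc
          exact (ne_of_mem_erase hv) h1
      · exact mem_insert_of_mem (mem_erase.2 ⟨hyw, ih⟩)
  have h2 : y ∈ Fx N col row S P K T := mem_Fx.2 hall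
  exact (mem_sdiff.1 hy).2 h2

/-- a live element is removed at some moment: its row becomes free -/
theorem exists_row_free (hT : State N col row S q P K T) {y : β}
    (hy : y ∈ Lv N col row S P K T) :
    ∃ T', Reach N col row S P K T T' ∧ row y ∉ T'.image row := by
  by_contra hno
  have hno' : ∀ T', Reach N col row S P K T T' → row y ∈ T'.image row := by
    intro T' h
    by_contra h'
    exact hno ⟨T', h, h'⟩
  have hall : ∀ T', Reach N col row S P K T T' → y ∈ T' := by
    intro T' h
    induction h with
    | refl => exact Lv_subset hy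
    | @tail A B hA hm ih =>
      have hB := hno' B (Relation.ReflTransGen.tail hA hm)
      obtain ⟨x, w, hxS, hxK, hxc, hxr, hxP, hw, hind, rfl⟩ := hm
      by_cases hyw : y = w
      · exfalso
        subst hyw
        obtain ⟨v, hv, hvc⟩ := mem_image.1 hB
        rcases mem_insert.1 hv with rfl | hv
        · exact hxr (hvc ▸ mem_image_of_mem row hw)
        · have h1 := (reach_state hT hA).good.rowinj (mem_coe.2 (mem_of_mem_erase hv))
            (mem_coe.2 hw) hvc
          exact (ne_of_mem_erase hv) h1
      · exact mem_insert_of_mem (mem_erase.2 ⟨hyw, ih⟩)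
  have h2 : y ∈ Fx N col row S P K T := mem_Fx.2 hall
  exact (mem_sdiff.1 hy).2 h2

end

end Helper64RB3
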