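import Pool.Agent.Helper64_RB3.Core

/-!
Colours in play, always covered rows, freezing a row.
-/

open Finset

namespace Helper64RB3

variable {β ι ρ : Type*} [DecidableEq β] [DecidableEq ι] [DecidableEq ρ]

section

variable {N : Matroid β} {col : β → ι} {row : β → ρ} {S : ι → Finset β}
  {q : ℕ} {P : Finset ρ} {K : Finset ι} {T T' : Finset β}

open Classical in
/-- colours in play -/
noncomputable def Pl (N : Matroid β) (col : β → ι) (row : β → ρ) (S : ι → Finset β)
    (P : Finset ρ) (K : Finset ι) (T : Finset β) : Finset ι :=
  K.filter (fun s => ∃ T', Reach N col row S P K T T' ∧ s ∉ T'.image col)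

/-- rows which are covered whenever the colour `s` is free -/
def Wd (N : Matroid β) (col : β → ι) (row : β → ρ) (S : ι → Finset β)
    (P : Finset ρ) (K : Finset ι) (T : Finset β) (s : ι) (r : ρ) : Prop :=
  ∀ T', Reach N col row S P K T T' → s ∉ T'.image col → r ∈ T'.image row ∨ r ∈ P

theorem mem_Pl {s : ι} : s ∈ Pl N col row S P K T ↔
    s ∈ K ∧ ∃ T', Reach N col row S P K T T' ∧ s ∉ T'.image col := by
  classical
  unfold Pl
  rw [mem_filter]

theorem Pl_eq (hT : State N col row S q P K T) :
    Pl N col row S P K T = K \ (Fx N col row S P K T).image col := by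
  ext s
  rw [mem_Pl, mem_sdiff]
  constructor
  · rintro ⟨hK, T', hR, hs⟩
    refine ⟨hK, fun h => hs ?_⟩
    obtain ⟨y, hy, rfl⟩ := mem_image.1 h
    exact mem_image_of_mem col (mem_Fx.1 hy T' hR)
  · rintro ⟨hK, hs⟩
    refine ⟨hK, ?_⟩
    by_cases h : s ∈ T.image col
    · obtain ⟨y, hy, rfl⟩ := mem_image.1 h
      have hy' : y ∈ Lv N col row S P K T :=
        mem_sdiff.2 ⟨hy, fun h => hs (mem_image_of_mem col h)⟩
      exact exists_col_free hT hy'
    · exact ⟨T, Relation.ReflTransGen.refl, h⟩

theorem card_Pl_add (hT : State N col row S q P K T) :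
    (Pl N col row S P K T).card + (Fx N col row S P K T).card = K.card := by
  rw [Pl_eq hT]
  have h1 : ((Fx N col row S P K T).image col).card = (Fx N col row S P K T).card := by
    apply card_image_of_injOn
    exact hT.good.colinj.mono (coe_subset.2 Fx_subset)
  have h2 : (Fx N col row S P K T).image col ⊆ K := by
    intro s hs
    obtain ⟨y, hy, rfl⟩ := mem_image.1 hs
    exact hT.inK y (Fx_subset hy)
  have h3 := card_sdiff_add_card_eq_card h2
  omega

theorem card_Fx_Lv (hT : State N col row S q P K T) :
    (Fx N col row S P K T).card + (Lv N col row S P K T).card = q := by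
  rw [card_Fx_add, hT.card]

/-- number of elements of the colour `s` outside the frozen rows -/
def sz (row : β → ρ) (S : ι → Finset β) (P : Finset ρ) (s : ι) : ℕ :=
  ((S s).filter (fun x => row x ∉ P)).card

open Classical in
theorem card_not_Wd (H : Hyp N col row S q) (hT : State N col row S q P K T) {s : ι}
    (hs : s ∈ K) :
    ((S s).filter (fun x => ¬ Wd N col row S P K T s (row x))).card ≤
      (Lv N col row S P K T).card := by
  apply card_le_of_subset_closure
  · exact (H.hN s).subset (coe_subset.2 (filter_subset _ _))
  · intro x hx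
    have hx' := mem_filter.1 (mem_coe.1 hx)
    have hcx := H.hc s x hx'.1
    have h1 := hx'.2
    unfold Wd at h1
    push Not at h1
    obtain ⟨T', hR, hsT, hr, hP⟩ := h1
    exact free_mem_flat H hT hR (hcx.symm ▸ hx'.1) (hcx.symm ▸ hs) (hcx.symm ▸ hsT) hr hP

open Classical in
/-- always covered elements of the colour `s`, outside the fixed rows -/
noncomputable def Ns (N : Matroid β) (col : β → ι) (row : β → ρ) (S : ι → Finset β)
    (P : Finset ρ) (K : Finset ι) (T : Finset β) (s : ι) : Finset β :=
  (S s).filter (fun x => Wd N col row S P K T s (row x) ∧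
    row x ∉ (Fx N col row S P K T).image row ∧ row x ∉ P)

omit [DecidableEq β] [DecidableEq ι] in
/-- at most as many elements of a colour as rows -/
theorem card_filter_row (H : Hyp N col row S q) (s : ι) (Z : Finset ρ) :
    ((S s).filter (fun x => row x ∈ Z)).card ≤ Z.card := by
  have h3 : (((S s).filter (fun x => row x ∈ Z)).image row).card =
      ((S s).filter (fun x => row x ∈ Z)).card := by
    apply card_image_of_injOn
    exact (H.hr s).mono (coe_subset.2 (filter_subset _ _))
  rw [← h3]
  apply card_le_card
  intro r hr
  obtain ⟨x, hx, rfl⟩ := mem_image.1 hr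
  exact (mem_filter.1 hx).2

theorem le_card_Ns (H : Hyp N col row S q) (hT : State N col row S q P K T) {s : ι}
    (hs : s ∈ K) :
    sz row S P s ≤ (Ns N col row S P K T s).card + q := by
  classical
  have h1 := card_not_Wd H hT hs
  have h2 := card_filter_row H s ((Fx N col row S P K T).image row)
  have h8 : (S s).filter (fun x => row x ∉ P) ⊆
      (S s).filter (fun x => ¬ Wd N col row S P K T s (row x)) ∪
      ((S s).filter (fun x => row x ∈ (Fx N col row S P K T).image row) ∪
        Ns N col row S P K T s) := by
    intro x hx
    obtain ⟨hx, hxP⟩ := mem_filter.1 hx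
    by_cases ha : Wd N col row S P K T s (row x)
    · apply mem_union_right
      by_cases hb : row x ∈ (Fx N col row S P K T).image row
      · apply mem_union_left
        exact mem_filter.2 ⟨hx, hb⟩
      · apply mem_union_right
        unfold Ns
        exact mem_filter.2 ⟨hx, ha, hb, hxP⟩
    · apply mem_union_left
      exact mem_filter.2 ⟨hx, ha⟩
  have h9 := card_le_card h8
  have h10 := card_union_le ((S s).filter (fun x => ¬ Wd N col row S P K T s (row x)))
    ((S s).filter (fun x => row x ∈ (Fx N col row S P K T).image row) ∪
        Ns N col row S P K T s)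
  have h11 := card_union_le
    ((S s).filter (fun x => row x ∈ (Fx N col row S P K T).image row))
    (Ns N col row S P K T s)
  have h12 := card_image_le (s := Fx N col row S P K T) (f := row)
  have h13 := card_Fx_Lv hT
  unfold sz
  omega

/-- a row outside the fixed rows is free in some reachable state -/
theorem exists_free (hT : State N col row S q P K T) {r : ρ}
    (hr : r ∉ (Fx N col row S P K T).image row) :
    ∃ T', Reach N col row S P K T T' ∧ r ∉ T'.image row := by
  by_cases h : r ∈ T.image row
  · obtain ⟨y, hy, rfl⟩ := mem_image.1 h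
    have hy' : y ∈ Lv N col row S P K T :=
      mem_sdiff.2 ⟨hy, fun h => hr (mem_image_of_mem row h)⟩
    exact exists_row_free hT hy'
  · exact ⟨T, Relation.ReflTransGen.refl, h⟩

open Classical in
/-- freezing a row -/
theorem freeze (hT : State N col row S q P K T) {r : ρ}
    (hr : r ∉ (Fx N col row S P K T).image row) (hrP : r ∉ P) :
    ∃ T', State N col row S q (insert r P) K T' ∧
      Pl N col row S (insert r P) K T' ⊆
        (Pl N col row S P K T).filter (fun s => ¬ Wd N col row S P K T s r) ∧
      ((Pl N col row S P K T).filter (fun s => Wd N col row S P K T s r)).card +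
        (Lv N col row S (insert r P) K T').card ≤ (Lv N col row S P K T).card := by
  obtain ⟨T', hR, hrow⟩ := exists_free hT hr
  have hT' := reach_state hT hR
  have hst : State N col row S q (insert r P) K T' := by
    refine ⟨hT'.good, ?_, hT'.inK, hT'.card⟩
    intro w hw h
    rcases mem_insert.1 h with h | h
    · exact hrow (h ▸ mem_image_of_mem row hw)
    · exact hT'.avP w hw h
  have h1 := card_Pl_add hT
  have h2 := card_Pl_add hst
  have h3 := card_Fx_Lv hT
  have h4 := card_Fx_Lv hst
  have h5 : Pl N col row S (insert r P) K T' ⊆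
        (Pl N col row S P K T).filter (fun s => ¬ Wd N col row S P K T s r) := by
    intro s hs
    obtain ⟨hK, T'', hR', hsT⟩ := mem_Pl.1 hs
    have hst'' := reach_state hst hR'
    have hR'' : Reach N col row S P K T T'' :=
      Relation.ReflTransGen.trans hR (reach_mono (subset_insert _ _) (Subset.refl K) hR')
    refine mem_filter.2 ⟨mem_Pl.2 ⟨hK, T'', hR'', hsT⟩, fun hW => ?_⟩
    rcases hW T'' hR'' hsT with h | h
    · obtain ⟨w, hw, hwr⟩ := mem_image.1 h
      exact hst''.avP w hw (hwr ▸ mem_insert_self _ _)
    · exact hrP h
  refine ⟨T', hst, h5, ?_⟩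
  have h6 := card_le_card h5
  have h7 := card_filter_add_card_filter_not (s := Pl N col row S P K T)
    (fun s => Wd N col row S P K T s r)
  omega

end

end Helper64RB3
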