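import Pool.Agent.Helper64_RB3.Count

/-!
The exponential potential.
-/

open Finset

namespace Helper64RB3

/-- the weight of a colour with parameter `z` -/
noncomputable def ph (c' : ℝ) (z : ℕ) : ℝ := ∏ j ∈ range z, (1 + c' * ((j : ℝ) + 1))⁻¹

theorem ph_zero (c' : ℝ) : ph c' 0 = 1 := by
  unfold ph
  simp

theorem ph_pos {c' : ℝ} (hc : 0 ≤ c') (z : ℕ) : 0 < ph c' z := by
  unfold ph
  apply prod_pos
  intro j _
  positivity

theorem ph_succ {c' : ℝ} (hc : 0 ≤ c') (z : ℕ) :
    ph c' z = ph c' (z + 1) + c' * (((z : ℝ) + 1) * ph c' (z + 1)) := by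
  unfold ph
  rw [prod_range_succ]
  have h : (0 : ℝ) < 1 + c' * ((z : ℝ) + 1) := by positivity
  field_simp

theorem ph_succ_le {c' : ℝ} (hc : 0 ≤ c') (z : ℕ) : ph c' (z + 1) ≤ ph c' z := by
  rw [ph_succ hc z]
  have h1 := ph_pos hc (z + 1)
  have h2 : 0 ≤ c' * (((z : ℝ) + 1) * ph c' (z + 1)) := by positivity
  linarith

theorem ph_antitone {c' : ℝ} (hc : 0 ≤ c') : Antitone (ph c') :=
  antitone_nat_of_succ_le (ph_succ_le hc)

theorem ph_inv {c' : ℝ} (hc : 0 ≤ c') (z : ℕ) :
    (∏ j ∈ range z, (1 + c' * ((j : ℝ) + 1))) * ph c' z = 1 := by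
  unfold ph
  rw [← prod_mul_distrib]
  apply prod_eq_one
  intro j _
  have h : (0 : ℝ) < 1 + c' * ((j : ℝ) + 1) := by positivity
  field_simp

variable {β ι ρ : Type*} [DecidableEq β] [DecidableEq ι] [DecidableEq ρ]

section

variable {N : Matroid β} {col : β → ι} {row : β → ρ} {S : ι → Finset β}
  {q : ℕ} {P : Finset ρ} {K : Finset ι} {T T' : Finset β}

/-- all rows of the allowed colours -/
def rws (row : β → ρ) (S : ι → Finset β) (K : Finset ι) : Finset ρ :=
  K.biUnion (fun s => (S s).image row)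

omit [DecidableEq ι] in
theorem sz_insert_of_mem (H : Hyp N col row S q) {s : ι} {r : ρ} (hr : r ∈ (S s).image row)
    (hrP : r ∉ P) : sz row S (insert r P) s + 1 = sz row S P s := by
  obtain ⟨x, hx, rfl⟩ := mem_image.1 hr
  unfold sz
  have h1 : (S s).filter (fun y => row y ∉ insert (row x) P) =
      ((S s).filter (fun y => row y ∉ P)).erase x := by
    ext y
    rw [mem_filter, mem_erase, mem_filter, mem_insert, not_or]
    constructor
    · rintro ⟨hy, hne, hP⟩
      exact ⟨fun h => hne (by rw [h]), hy, hP⟩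
    · rintro ⟨hne, hy, hP⟩
      exact ⟨hy, fun h => hne (H.hr s (mem_coe.2 hy) (mem_coe.2 hx) h), hP⟩
  rw [h1]
  apply card_erase_add_one
  exact mem_filter.2 ⟨hx, hrP⟩

omit [DecidableEq β] [DecidableEq ι] in
theorem sz_insert_of_notMem {s : ι} {r : ρ} (hr : r ∉ (S s).image row) :
    sz row S (insert r P) s = sz row S P s := by
  unfold sz
  congr 1
  ext y
  rw [mem_filter, mem_filter, mem_insert, not_or]
  constructor
  · rintro ⟨hy, _, hP⟩
    exact ⟨hy, hP⟩
  · rintro ⟨hy, hP⟩
    exact ⟨hy, fun h => hr (mem_image.2 ⟨y, hy, h⟩), hP⟩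

open Classical in
theorem cntA (H : Hyp N col row S q) (hT : State N col row S q P K T) {s : ι} (hs : s ∈ K) :
    sz row S P s - q ≤ ((rws row S K \ ((Fx N col row S P K T).image row ∪ P)).filter
      (fun r => Wd N col row S P K T s r ∧ r ∈ (S s).image row)).card := by
  have h1 := le_card_Ns H hT hs
  have h2 : ((Ns N col row S P K T s).image row).card = (Ns N col row S P K T s).card := by
    apply card_image_of_injOn
    refine (H.hr s).mono (coe_subset.2 ?_)
    unfold Ns
    exact filter_subset _ _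
  have h3 : (Ns N col row S P K T s).image row ⊆
      (rws row S K \ ((Fx N col row S P K T).image row ∪ P)).filter
      (fun r => Wd N col row S P K T s r ∧ r ∈ (S s).image row) := by
    intro r hr
    obtain ⟨x, hx, rfl⟩ := mem_image.1 hr
    unfold Ns at hx
    obtain ⟨hxS, hW, hF, hP⟩ := mem_filter.1 hx
    have hxr : row x ∈ (S s).image row := mem_image_of_mem _ hxS
    refine mem_filter.2 ⟨mem_sdiff.2 ⟨?_, ?_⟩, hW, hxr⟩
    · unfold rws
      exact mem_biUnion.2 ⟨s, hs, hxr⟩
    · rw [mem_union]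
      exact fun h => h.elim hF hP
  have h4 := card_le_card h3
  omega

open Classical in
theorem cntB (H : Hyp N col row S q) (hT : State N col row S q P K T) {s : ι} (hs : s ∈ K) :
    ((rws row S K \ ((Fx N col row S P K T).image row ∪ P)).filter
      (fun r => ¬ Wd N col row S P K T s r ∧ r ∈ (S s).image row)).card ≤
      (Lv N col row S P K T).card := by
  have h1 := card_not_Wd H hT hs
  refine le_trans ?_ h1
  refine le_trans ?_ (card_image_le (f := row))
  apply card_le_card
  intro r hr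
  obtain ⟨_, hW, hr'⟩ := mem_filter.1 hr
  obtain ⟨x, hx, rfl⟩ := mem_image.1 hr'
  exact mem_image.2 ⟨x, mem_filter.2 ⟨hx, hW⟩, rfl⟩

open Classical in
/-- one frozen row -/
theorem one_row (H : Hyp N col row S q) (hT : State N col row S q P K T) {c c' : ℝ}
    (hc : 0 ≤ c) (hc' : 0 ≤ c') {r : ρ}
    (hr : r ∉ (Fx N col row S P K T).image row) (hrP : r ∉ P)
    (hz : ∀ s ∈ Pl N col row S P K T, 1 ≤ sz row S P s - q)
    (hih : ∀ T', State N col row S q (insert r P) K T' →
      (Lv N col row S (insert r P) K T').card ≤ (Lv N col row S P K T).card →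
      1 ≤ (1 + c) ^ (Lv N col row S (insert r P) K T').card *
        ∑ s ∈ Pl N col row S (insert r P) K T', ph c' (sz row S (insert r P) s - q))
    (hcon : (1 + c) ^ (Lv N col row S P K T).card *
        ∑ s ∈ Pl N col row S P K T, ph c' (sz row S P s - q) < 1) :
    c * (∑ s ∈ Pl N col row S P K T,
          if Wd N col row S P K T s r ∧ r ∈ (S s).image row then (1 : ℝ) else 0) *
        (∑ s ∈ Pl N col row S P K T, ph c' (sz row S P s - q)) +
      (∑ s ∈ Pl N col row S P K T,
          if Wd N col row S P K T s r ∧ r ∈ (S s).image row then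
            ph c' (sz row S P s - q) else 0) <
      c' * ∑ s ∈ Pl N col row S P K T,
          if ¬ Wd N col row S P K T s r ∧ r ∈ (S s).image row then
            ((sz row S P s - q : ℕ) : ℝ) * ph c' (sz row S P s - q) else 0 := by
  obtain ⟨T', hst, hsub, hcard⟩ := freeze hT hr hrP
  obtain ⟨h, hh⟩ : ∃ h, h = (Lv N col row S P K T).card := ⟨_, rfl⟩
  obtain ⟨h', hh'⟩ : ∃ h', h' = (Lv N col row S (insert r P) K T').card := ⟨_, rfl⟩
  obtain ⟨Φ, hΦ⟩ : ∃ Φ, Φ = ∑ s ∈ Pl N col row S P K T, ph c' (sz row S P s - q) := ⟨_, rfl⟩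
  have h1 := hih T' hst (by omega)
  rw [← hh'] at h1
  rw [← hh, ← hΦ] at hcon
  -- comparison of the two sums
  have h2 : ∑ s ∈ Pl N col row S (insert r P) K T', ph c' (sz row S (insert r P) s - q) ≤
      ∑ s ∈ (Pl N col row S P K T).filter (fun s => ¬ Wd N col row S P K T s r),
        ph c' (sz row S (insert r P) s - q) := by
    apply sum_le_sum_of_subset_of_nonneg hsub
    intro s _ _
    exact (ph_pos hc' _).le
  rw [sum_filter] at h2
  have h3 : ∀ s ∈ Pl N col row S P K T,
      (if ¬ Wd N col row S P K T s r then ph c' (sz row S (insert r P) s - q) else 0) ≤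
      ph c' (sz row S P s - q) -
        (if Wd N col row S P K T s r ∧ r ∈ (S s).image row then
            ph c' (sz row S P s - q) else 0) +
        c' * (if ¬ Wd N col row S P K T s r ∧ r ∈ (S s).image row then
            ((sz row S P s - q : ℕ) : ℝ) * ph c' (sz row S P s - q) else 0) := by
    intro s hs
    by_cases hW : Wd N col row S P K T s r
    · have e2 : ¬ (¬ Wd N col row S P K T s r ∧ r ∈ (S s).image row) := fun h => h.1 hW
      rw [if_neg (not_not.2 hW), if_neg e2]
      have h4 := ph_pos hc' (sz row S P s - q)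
      split_ifs <;> linarith
    · rw [if_pos hW, if_neg (fun h => hW h.1)]
      by_cases hrs : r ∈ (S s).image row
      · rw [if_pos ⟨hW, hrs⟩]
        have h5 := sz_insert_of_mem H hrs hrP
        obtain ⟨w, hw⟩ : ∃ w, sz row S P s - q = w + 1 := ⟨sz row S P s - q - 1, by
          have := hz s hs
          omega⟩
        have h6 : sz row S (insert r P) s - q = w := by omega
        rw [h6, hw, ph_succ hc' w]
        push_cast
        linarith
      · rw [if_neg (fun h => hrs h.2), sz_insert_of_notMem hrs]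
        linarith
  have h4 := h2.trans (sum_le_sum h3)
  rw [sum_add_distrib, sum_sub_distrib, ← mul_sum, ← hΦ] at h4
  -- number of dropped colours
  obtain ⟨n, hn⟩ : ∃ n, n = ((Pl N col row S P K T).filter
      (fun s => Wd N col row S P K T s r ∧ r ∈ (S s).image row)).card := ⟨_, rfl⟩
  have h5 : (∑ s ∈ Pl N col row S P K T,
          if Wd N col row S P K T s r ∧ r ∈ (S s).image row then (1 : ℝ) else 0) = n := by
    rw [← sum_filter, sum_const, nsmul_eq_mul, mul_one, hn]
  have h6 : n + h' ≤ h := by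
    have h7 : n ≤ ((Pl N col row S P K T).filter
        (fun s => Wd N col row S P K T s r)).card := by
      rw [hn]
      apply card_le_card
      intro s hs
      obtain ⟨hs1, hs2⟩ := mem_filter.1 hs
      exact mem_filter.2 ⟨hs1, hs2.1⟩
    omega
  rw [h5, ← hΦ]
  obtain ⟨Φ', hΦ'⟩ : ∃ Φ', Φ' = ∑ s ∈ Pl N col row S (insert r P) K T',
      ph c' (sz row S (insert r P) s - q) := ⟨_, rfl⟩
  rw [← hΦ'] at h1 h4
  have hΦ'0 : 0 ≤ Φ' := by
    rw [hΦ']
    exact sum_nonneg (fun s _ => (ph_pos hc' _).le)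
  have hΦ0 : 0 ≤ Φ := by
    rw [hΦ]
    exact sum_nonneg (fun s _ => (ph_pos hc' _).le)
  have hone : (1 : ℝ) ≤ 1 + c := by linarith
  have h7 : (1 + c) ^ n * Φ < Φ' := by
    obtain ⟨e, he⟩ : ∃ e, h = n + h' + e := ⟨h - (n + h'), by omega⟩
    have h8 : (1 + c) ^ h = (1 + c) ^ n * (1 + c) ^ h' * (1 + c) ^ e := by
      rw [he, pow_add, pow_add]
    have h9 : (1 : ℝ) ≤ (1 + c) ^ e := one_le_pow₀ hone
    have h10 : (0 : ℝ) < (1 + c) ^ h' := by positivity
    have h11 : (1 + c) ^ n * (1 + c) ^ h' * Φ ≤ (1 + c) ^ h * Φ := by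
      apply mul_le_mul_of_nonneg_right _ hΦ0
      rw [h8]
      have h12 : (0 : ℝ) ≤ (1 + c) ^ n * (1 + c) ^ h' := by positivity
      nlinarith
    have h13 : (1 + c) ^ h' * ((1 + c) ^ n * Φ) < (1 + c) ^ h' * Φ' := by
      calc (1 + c) ^ h' * ((1 + c) ^ n * Φ) = (1 + c) ^ n * (1 + c) ^ h' * Φ := by ring
        _ ≤ (1 + c) ^ h * Φ := h11
        _ < 1 := hcon
        _ ≤ _ := h1
    exact lt_of_mul_lt_mul_left h13 h10.le
  have h8 : (1 : ℝ) + n * c ≤ (1 + c) ^ n := one_add_mul_le_pow (by linarith) n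
  have h9 : (1 + n * c) * Φ ≤ (1 + c) ^ n * Φ := mul_le_mul_of_nonneg_right h8 hΦ0
  have h10 : c * (n : ℝ) * Φ + Φ < Φ' := by
    calc c * (n : ℝ) * Φ + Φ = (1 + n * c) * Φ := by ring
      _ ≤ _ := h9
      _ < _ := h7
  linarith

open Classical in
/-- the potential of a closed system is at least one -/
theorem pot (H : Hyp N col row S q) {c c' : ℝ} (hc : 0 ≤ c) (hcc : c ≤ c') {B : ℕ}
    (hB : c' * B ≤ 1 + c * (B + 1)) (hK : q < K.card) :
    ∀ (u : ℕ) (P : Finset ρ) (T : Finset β), State N col row S q P K T →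
      (rws row S K \ P).card = u → (Lv N col row S P K T).card ≤ B →
      1 ≤ (1 + c) ^ (Lv N col row S P K T).card *
        ∑ s ∈ Pl N col row S P K T, ph c' (sz row S P s - q) := by
  intro u
  induction u using Nat.strong_induction_on with
  | _ u ih =>
    intro P T hT hu hLB
    by_contra hcon
    rw [not_le] at hcon
    have hc' : 0 ≤ c' := hc.trans hcc
    have hone : (1 : ℝ) ≤ 1 + c := by linarith
    have hcPl := card_Pl_add hT
    have hcFx := card_Fx_Lv hT
    have hPlc : (Lv N col row S P K T).card + 1 ≤ (Pl N col row S P K T).card := by omega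
    have hPlne : (Pl N col row S P K T).Nonempty := by
      rw [← card_pos]
      omega
    have hz : ∀ s ∈ Pl N col row S P K T, 1 ≤ sz row S P s - q := by
      intro s hs
      by_contra h0
      have h1 : sz row S P s - q = 0 := by omega
      have h2 : (1 : ℝ) ≤ ∑ s ∈ Pl N col row S P K T, ph c' (sz row S P s - q) := by
        have h3 := single_le_sum (f := fun s => ph c' (sz row S P s - q))
          (fun s _ => (ph_pos hc' _).le) hs
        simp only [h1, ph_zero] at h3
        exact h3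
      have h4 : (1 : ℝ) ≤ (1 + c) ^ (Lv N col row S P K T).card := one_le_pow₀ hone
      nlinarith
    obtain ⟨Rr, hRr⟩ : ∃ Rr, Rr = rws row S K \ ((Fx N col row S P K T).image row ∪ P) :=
      ⟨_, rfl⟩
    have hrow : ∀ r ∈ Rr, _ := fun r hr => by
      have hr1 := hr
      rw [hRr, mem_sdiff, mem_union, not_or] at hr1
      exact one_row H hT hc hc' hr1.2.1 hr1.2.2 hz (fun T' hT' hle => by
        refine ih (rws row S K \ insert r P).card ?_ (insert r P) T' hT' rfl (hle.trans hLB)
        rw [← hu]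
        apply card_lt_card
        rw [ssubset_iff_of_subset (sdiff_subset_sdiff (Subset.refl _) (subset_insert _ _))]
        exact ⟨r, mem_sdiff.2 ⟨hr1.1, hr1.2.2⟩,
          fun h => (mem_sdiff.1 h).2 (mem_insert_self _ _)⟩) hcon
    have hRne : Rr.Nonempty := by
      obtain ⟨s, hs⟩ := hPlne
      have h1 := cntA H hT (mem_Pl.1 hs).1
      have h2 := hz s hs
      have h3 : 0 < ((rws row S K \ ((Fx N col row S P K T).image row ∪ P)).filter
        (fun r => Wd N col row S P K T s r ∧ r ∈ (S s).image row)).card := by omega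
      obtain ⟨r, hr⟩ := card_pos.1 h3
      exact ⟨r, by rw [hRr]; exact (mem_filter.1 hr).1⟩
    have hsum := sum_lt_sum_of_nonempty hRne hrow
    obtain ⟨h, hh⟩ : ∃ h, h = (Lv N col row S P K T).card := ⟨_, rfl⟩
    obtain ⟨Φ, hΦ⟩ : ∃ Φ, Φ = ∑ s ∈ Pl N col row S P K T, ph c' (sz row S P s - q) :=
      ⟨_, rfl⟩
    rw [← hΦ] at hsum
    rw [sum_add_distrib, ← sum_mul, ← mul_sum, ← mul_sum, sum_comm (s := Rr), sum_comm (s := Rr),
      sum_comm (s := Rr)] at hsum
    have hA1 : ∀ s ∈ Pl N col row S P K T, ((sz row S P s - q : ℕ) : ℝ) ≤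
        ∑ r ∈ Rr, if Wd N col row S P K T s r ∧ r ∈ (S s).image row then (1 : ℝ) else 0 := by
      intro s hs
      rw [← sum_filter, sum_const, nsmul_eq_mul, mul_one, hRr]
      exact_mod_cast cntA H hT (mem_Pl.1 hs).1
    have hA2 : ∀ s ∈ Pl N col row S P K T,
        ((sz row S P s - q : ℕ) : ℝ) * ph c' (sz row S P s - q) ≤
        ∑ r ∈ Rr, if Wd N col row S P K T s r ∧ r ∈ (S s).image row then
          ph c' (sz row S P s - q) else 0 := by
      intro s hs
      rw [← sum_filter, sum_const, nsmul_eq_mul, hRr]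
      apply mul_le_mul_of_nonneg_right _ (ph_pos hc' _).le
      exact_mod_cast cntA H hT (mem_Pl.1 hs).1
    have hB1 : ∀ s ∈ Pl N col row S P K T,
        (∑ r ∈ Rr, if ¬ Wd N col row S P K T s r ∧ r ∈ (S s).image row then
          ((sz row S P s - q : ℕ) : ℝ) * ph c' (sz row S P s - q) else 0) ≤
        (h : ℝ) * (((sz row S P s - q : ℕ) : ℝ) * ph c' (sz row S P s - q)) := by
      intro s hs
      rw [← sum_filter, sum_const, nsmul_eq_mul, hRr, hh]
      apply mul_le_mul_of_nonneg_right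
      · exact_mod_cast cntB H hT (mem_Pl.1 hs).1
      · have := ph_pos hc' (sz row S P s - q)
        positivity
    have hA1' := sum_le_sum hA1
    have hA2' := sum_le_sum hA2
    have hB1' := sum_le_sum hB1
    rw [← mul_sum] at hB1'
    have hcheb : ((Pl N col row S P K T).card : ℝ) *
        ∑ s ∈ Pl N col row S P K T, ph c' (sz row S P s - q) *
          ((sz row S P s - q : ℕ) : ℝ) ≤
        (∑ s ∈ Pl N col row S P K T, ph c' (sz row S P s - q)) *
        ∑ s ∈ Pl N col row S P K T, ((sz row S P s - q : ℕ) : ℝ) := by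
      apply AntivaryOn.card_mul_sum_le_sum_mul_sum
      intro i _ j _ hij
      apply ph_antitone hc'
      have h0 : ((sz row S P i - q : ℕ) : ℝ) < ((sz row S P j - q : ℕ) : ℝ) := hij
      have h1 : sz row S P i - q < sz row S P j - q := by exact_mod_cast h0
      omega
    rw [← hΦ] at hcheb
    obtain ⟨E, hE⟩ : ∃ E, E = ∑ s ∈ Pl N col row S P K T,
        ((sz row S P s - q : ℕ) : ℝ) * ph c' (sz row S P s - q) := ⟨_, rfl⟩
    have hE' : ∑ s ∈ Pl N col row S P K T, ph c' (sz row S P s - q) *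
          ((sz row S P s - q : ℕ) : ℝ) = E := by
      rw [hE]
      exact sum_congr rfl (fun s _ => mul_comm _ _)
    rw [hE'] at hcheb
    rw [← hE] at hA2' hB1'
    have hE0 : 0 ≤ E := by
      rw [hE]
      apply sum_nonneg
      intro s _
      have := ph_pos hc' (sz row S P s - q)
      positivity
    have hΦ0 : 0 ≤ Φ := by
      rw [hΦ]
      exact sum_nonneg (fun s _ => (ph_pos hc' _).le)
    have hm : ((h : ℝ) + 1) ≤ ((Pl N col row S P K T).card : ℝ) := by
      rw [hh]
      exact_mod_cast hPlc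
    have hhB : (h : ℝ) ≤ B := by
      rw [hh]
      exact_mod_cast hLB
    have hbd : c' * h ≤ 1 + c * (h + 1) := by nlinarith
    obtain ⟨Z, hZ⟩ : ∃ Z, Z = ∑ s ∈ Pl N col row S P K T, ((sz row S P s - q : ℕ) : ℝ) :=
      ⟨_, rfl⟩
    rw [← hZ] at hcheb hA1'
    obtain ⟨X1, hX1⟩ : ∃ X1, X1 = ∑ s ∈ Pl N col row S P K T,
        ∑ r ∈ Rr, if Wd N col row S P K T s r ∧ r ∈ (S s).image row then (1 : ℝ) else 0 :=
      ⟨_, rfl⟩
    rw [← hX1] at hA1' hsum
    have k1 : c * ((h : ℝ) + 1) * E ≤ c * X1 * Φ := by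
      have k2 : ((h : ℝ) + 1) * E ≤ Φ * Z := (mul_le_mul_of_nonneg_right hm hE0).trans hcheb
      have k3 : Φ * Z ≤ Φ * X1 := mul_le_mul_of_nonneg_left hA1' hΦ0
      have k4 := mul_le_mul_of_nonneg_left (k2.trans k3) hc
      calc c * ((h : ℝ) + 1) * E = c * (((h : ℝ) + 1) * E) := by ring
        _ ≤ c * (Φ * X1) := k4
        _ = _ := by ring
    have k5 := mul_le_mul_of_nonneg_left hB1' hc'
    have k6 : c' * ((h : ℝ) * E) ≤ (1 + c * (h + 1)) * E := by
      calc c' * ((h : ℝ) * E) = (c' * h) * E := by ring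
        _ ≤ _ := mul_le_mul_of_nonneg_right hbd hE0
    nlinarith

end

end Helper64RB3
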