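import Pool.Agent.Helper64_RB3.Pot

/-!
The spanning case: every colour meets every row.
-/

open Finset

namespace Helper64RB3

/-- the bound in the spanning case -/
def bb (z : ℕ) : ℕ := z * (z - 1) / 2 + min z 4

theorem bb_small : ∀ z < 4, ∀ h < 10, (h + (z + 1)) * (bb z + 1) ≤ h * (h + 1) →
    bb (z + 1) ≤ h := by
  decide

theorem bb_step {z h : ℕ} (h1 : (h + (z + 1)) * (bb z + 1) ≤ h * (h + 1)) :
    bb (z + 1) ≤ h := by
  by_contra hlt
  rw [not_le] at hlt
  by_cases hz : z < 4
  · have hb : bb (z + 1) ≤ 10 := by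
      have h0 : ∀ z < 4, bb (z + 1) ≤ 10 := by decide
      exact h0 z hz
    have h2 := bb_small z hz h (by omega) h1
    omega
  · have e1 : z + 1 - 1 = z := by omega
    unfold bb at h1 hlt
    rw [e1] at hlt
    obtain ⟨w, rfl⟩ : ∃ w, z = w + 4 := ⟨z - 4, by omega⟩
    have m1 : min (w + 4) 4 = 4 := by omega
    have m2 : min (w + 4 + 1) 4 = 4 := by omega
    rw [m1] at h1
    rw [m2] at hlt
    obtain ⟨t1, ht1⟩ : ∃ t, (w + 4) * (w + 4 - 1) = 2 * t := by
      have h2 : w + 4 - 1 = w + 3 := by omega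
      rw [h2]
      have h3 := Nat.even_mul_succ_self (w + 3)
      obtain ⟨t, ht⟩ := h3
      exact ⟨t, by
        have : (w + 4) * (w + 3) = (w + 3) * (w + 3 + 1) := by ring
        omega⟩
    obtain ⟨t2, ht2⟩ : ∃ t, (w + 4 + 1) * (w + 4) = 2 * t := by
      have h3 := Nat.even_mul_succ_self (w + 4)
      obtain ⟨t, ht⟩ := h3
      exact ⟨t, by
        have : (w + 4 + 1) * (w + 4) = (w + 4) * (w + 4 + 1) := by ring
        omega⟩
    have d1 : (w + 4) * (w + 4 - 1) / 2 = t1 := by omega
    have d2 : (w + 4 + 1) * (w + 4) / 2 = t2 := by omega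
    rw [d1] at h1
    rw [d2] at hlt
    have h2 : w + 4 - 1 = w + 3 := by omega
    rw [h2] at ht1
    have f1 : ((w : ℤ) + 4) * (w + 3) = 2 * t1 := by exact_mod_cast ht1
    have f2 : ((w : ℤ) + 5) * (w + 4) = 2 * t2 := by
      have : (w + 4 + 1) * (w + 4) = (w + 5) * (w + 4) := by ring
      rw [this] at ht2
      exact_mod_cast ht2
    have f3 : ((h : ℤ) + (w + 5)) * (t1 + 5) ≤ h * (h + 1) := by
      have : (h + (w + 4 + 1)) * (t1 + 4 + 1) = (h + (w + 5)) * (t1 + 5) := by ring
      rw [this] at h1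
      exact_mod_cast h1
    have f4 : (h : ℤ) ≤ t2 + 3 := by
      have : h ≤ t2 + 3 := by omega
      exact_mod_cast this
    have f5 : (0 : ℤ) ≤ h := by positivity
    have f6 : (t2 : ℤ) = t1 + w + 4 := by nlinarith
    have f7 : (0 : ℤ) ≤ w := by positivity
    -- convexity
    have f8 : ((h : ℤ) - (t2 + 3)) * h ≤ 0 := by nlinarith
    nlinarith

theorem bb_mono {y z : ℕ} (h : y ≤ z) : bb y ≤ bb z := by
  unfold bb
  have h1 : y * (y - 1) ≤ z * (z - 1) := Nat.mul_le_mul h (by omega)
  have h2 : y * (y - 1) / 2 ≤ z * (z - 1) / 2 := Nat.div_le_div_right h1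
  omega

variable {β ι ρ : Type*} [DecidableEq β] [DecidableEq ι] [DecidableEq ρ]

section

variable {N : Matroid β} {col : β → ι} {row : β → ρ} {S : ι → Finset β}
  {q : ℕ} {P : Finset ρ} {K : Finset ι} {T T' : Finset β}

/-- the live part is large if every colour meets every row -/
theorem span_bound (H : Hyp N col row S q) (hK : K.card = q + 1) (U : Finset ρ)
    (hU : ∀ s, (S s).image row = U) :
    ∀ (z : ℕ) (P : Finset ρ) (T : Finset β), State N col row S q P K T → P ⊆ U →
      q + P.card + z ≤ U.card → bb z ≤ (Lv N col row S P K T).card := by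
  classical
  intro z
  induction z with
  | zero =>
    intro P T _ _ _
    unfold bb
    simp
  | succ z ih =>
    intro P T hT hPU hz
    have hcPl := card_Pl_add hT
    have hcFx := card_Fx_Lv hT
    obtain ⟨h, hh⟩ : ∃ h, h = (Lv N col row S P K T).card := ⟨_, rfl⟩
    rw [← hh] at hcFx ⊢
    have hPlc : (Pl N col row S P K T).card = h + 1 := by omega
    obtain ⟨Rr, hRr⟩ : ∃ Rr, Rr = U \ ((Fx N col row S P K T).image row ∪ P) := ⟨_, rfl⟩
    have hRc : h + (z + 1) ≤ Rr.card := by
      have h1 := le_card_sdiff ((Fx N col row S P K T).image row ∪ P) U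
      rw [← hRr] at h1
      have h2 := card_union_le ((Fx N col row S P K T).image row) P
      have h3 := card_image_le (s := Fx N col row S P K T) (f := row)
      omega
    have hlow : ∀ r ∈ Rr, bb z + 1 ≤
        ((Pl N col row S P K T).filter (fun s => ¬ Wd N col row S P K T s r)).card := by
      intro r hr
      rw [hRr, mem_sdiff, mem_union, not_or] at hr
      obtain ⟨T', hst, hsub, _⟩ := freeze hT hr.2.1 hr.2.2
      have h1 := ih (insert r P) T' hst (insert_subset hr.1 hPU) (by
        rw [card_insert_of_notMem hr.2.2]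
        omega)
      have h2 := card_Pl_add hst
      have h3 := card_Fx_Lv hst
      have h4 := card_le_card hsub
      omega
    have hup : ∀ s ∈ Pl N col row S P K T,
        (Rr.filter (fun r => ¬ Wd N col row S P K T s r)).card ≤ h := by
      intro s hs
      have hsK := (mem_Pl.1 hs).1
      have h1 := card_not_Wd H hT hsK
      rw [← hh] at h1
      refine le_trans ?_ h1
      refine le_trans ?_ (card_image_le (f := row))
      apply card_le_card
      intro r hr
      obtain ⟨hr1, hW⟩ := mem_filter.1 hr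
      rw [hRr, mem_sdiff] at hr1
      have hr2 := hr1.1
      rw [← hU s] at hr2
      obtain ⟨x, hx, rfl⟩ := mem_image.1 hr2
      exact mem_image.2 ⟨x, mem_filter.2 ⟨hx, hW⟩, rfl⟩
    have hswap : ∑ r ∈ Rr,
        ((Pl N col row S P K T).filter (fun s => ¬ Wd N col row S P K T s r)).card =
        ∑ s ∈ Pl N col row S P K T,
          (Rr.filter (fun r => ¬ Wd N col row S P K T s r)).card := by
      simp only [card_filter]
      exact sum_comm
    have h1 := sum_le_sum hlow
    have h2 := sum_le_sum hup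
    rw [sum_const, smul_eq_mul] at h1 h2
    rw [hswap] at h1
    rw [hPlc] at h2
    apply bb_step
    calc (h + (z + 1)) * (bb z + 1) ≤ Rr.card * (bb z + 1) := Nat.mul_le_mul_right _ hRc
      _ ≤ _ := h1
      _ ≤ (h + 1) * h := h2
      _ = h * (h + 1) := by ring

end

end Helper64RB3
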