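import Pool.Agent.Helper64_RB3.Main

/-!
From coloured copies to the sets themselves.
-/

open Finset

namespace Helper64RB3

theorem transversal_main {α : Type*} {ρ : Type*} (N : Matroid α) (adj : α → ρ → Prop)
    (m n a z B : ℕ) (S : Fin m → Finset α) (hN : ∀ i, N.Indep (S i : Set α))
    (hM : ∀ i, ∃ f : {x // x ∈ S i} → ρ, Function.Injective f ∧
      ∀ e : {x // x ∈ S i}, adj (e : α) (f e))
    (hm : n + a ≤ m) (hsz : ∀ i, n + z ≤ (S i).card + 1) (hB : n ≤ B + 1 + a * z)
    (hcrit : Crit z B ∨ (Nat.card ρ + 1 = n + z ∧ 1 ≤ z ∧ B < bb z)) :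
    ∃ (R : Finset α) (φ : {x // x ∈ R} → Fin m) (f : {x // x ∈ R} → ρ), R.card = n ∧
      Function.Injective φ ∧ (∀ x : {x // x ∈ R}, (x : α) ∈ S (φ x)) ∧ N.Indep (R : Set α) ∧
      Function.Injective f ∧ ∀ x : {x // x ∈ R}, adj (x : α) (f x) := by
  classical
  by_cases hn0 : n = 0
  · refine ⟨∅, fun x => absurd x.2 (notMem_empty _), fun x => absurd x.2 (notMem_empty _), ?_, ?_,
      ?_, ?_, ?_, ?_⟩
    · rw [card_empty, hn0]
    · intro x
      exact absurd x.2 (notMem_empty _)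
    · intro x
      exact absurd x.2 (notMem_empty _)
    · rw [coe_empty]
      exact N.empty_indep
    · intro x
      exact absurd x.2 (notMem_empty _)
    · intro x
      exact absurd x.2 (notMem_empty _)
  choose g hg hadj using hM
  obtain ⟨pr, hpr⟩ : ∃ pr : {p : Fin m × α // p.2 ∈ S p.1} → α, ∀ p, pr p = p.1.2 :=
    ⟨fun p => p.1.2, fun _ => rfl⟩
  obtain ⟨col, hcol⟩ : ∃ col : {p : Fin m × α // p.2 ∈ S p.1} → Fin m, ∀ p, col p = p.1.1 :=
    ⟨fun p => p.1.1, fun _ => rfl⟩
  obtain ⟨row, hrow⟩ : ∃ row : {p : Fin m × α // p.2 ∈ S p.1} → ρ,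
      ∀ p, row p = g p.1.1 ⟨p.1.2, p.2⟩ := ⟨fun p => g p.1.1 ⟨p.1.2, p.2⟩, fun _ => rfl⟩
  obtain ⟨emb, hemb⟩ : ∃ emb : ∀ i, {x // x ∈ S i} → {p : Fin m × α // p.2 ∈ S p.1},
      ∀ i e, emb i e = ⟨(i, e.1), e.2⟩ := ⟨fun i e => ⟨(i, e.1), e.2⟩, fun _ _ => rfl⟩
  obtain ⟨S', hS'⟩ : ∃ S' : Fin m → Finset {p : Fin m × α // p.2 ∈ S p.1},
      ∀ i, S' i = (S i).attach.image (emb i) := ⟨fun i => (S i).attach.image (emb i), fun _ => rfl⟩
  have hembinj : ∀ i, Function.Injective (emb i) := by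
    intro i e e' h
    rw [hemb, hemb] at h
    have h1 := congrArg (fun p => p.1.2) h
    exact Subtype.ext h1
  have hmem : ∀ i p, p ∈ S' i → ∃ e : {x // x ∈ S i}, emb i e = p := by
    intro i p hp
    rw [hS'] at hp
    obtain ⟨e, _, he⟩ := mem_image.1 hp
    exact ⟨e, he⟩
  have hrinj : ∀ i, Set.InjOn row (S' i : Set {p : Fin m × α // p.2 ∈ S p.1}) := by
    intro i x hx y hy hxy
    obtain ⟨e, rfl⟩ := hmem i x (mem_coe.1 hx)
    obtain ⟨e', rfl⟩ := hmem i y (mem_coe.1 hy)
    rw [hrow, hrow, hemb, hemb] at hxy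
    have h1 := hg i hxy
    have h2 : e = e' := h1
    rw [h2]
  have hScard : ∀ i, (S' i).card = (S i).card := by
    intro i
    rw [hS', card_image_of_injective _ (hembinj i), card_attach]
  obtain ⟨T, hT, hTn⟩ := abstract_main (N.comap pr) col row S' (by
      intro i x hx
      obtain ⟨e, rfl⟩ := hmem i x hx
      rw [hcol, hemb]) hrinj (by
      intro i
      rw [Matroid.comap_indep_iff]
      constructor
      · refine (hN i).subset ?_
        rintro _ ⟨p, hp, rfl⟩
        obtain ⟨e, rfl⟩ := hmem i p (mem_coe.1 hp)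
        rw [hpr, hemb]
        exact e.2
      · intro x hx y hy hxy
        obtain ⟨e, rfl⟩ := hmem i x (mem_coe.1 hx)
        obtain ⟨e', rfl⟩ := hmem i y (mem_coe.1 hy)
        rw [hpr, hpr, hemb, hemb] at hxy
        have h1 : e = e' := Subtype.ext hxy
        rw [h1])
    n a z B (by rw [Fintype.card_fin]; exact hm) (by
      intro i
      rw [hScard]
      exact hsz i) hB (by
      rcases hcrit with h | ⟨h1, h2, h3⟩
      · exact Or.inl h
      · right
        have hpos : Nat.card ρ ≠ 0 := by omega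
        have hfin : Finite ρ := Nat.finite_of_card_ne_zero hpos
        obtain ⟨hft⟩ := nonempty_fintype ρ
        refine ⟨univ, ?_, ?_, h3⟩
        · intro i
          apply eq_univ_of_card
          have h4 : ((S' i).image row).card = (S' i).card := card_image_of_injOn (hrinj i)
          have h5 := card_le_univ ((S' i).image row)
          have h6 := hsz i
          have h7 := hScard i
          rw [Nat.card_eq_fintype_card] at h1
          omega
        · rw [card_univ, ← Nat.card_eq_fintype_card]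
          omega)
  obtain ⟨hind, hinj⟩ := Matroid.comap_indep_iff.1 hT.ind
  have hex : ∀ x : {x // x ∈ T.image pr}, ∃ p, p ∈ T ∧ pr p = x := by
    intro x
    obtain ⟨p, hp, hpx⟩ := mem_image.1 x.2
    exact ⟨p, hp, hpx⟩
  choose w hw hwx using hex
  refine ⟨T.image pr, fun x => col (w x), fun x => row (w x), ?_, ?_, ?_, ?_, ?_, ?_⟩
  · rw [card_image_of_injOn hinj, hTn]
  · intro x y hxy
    have h1 : w x = w y := hT.colinj (mem_coe.2 (hw x)) (mem_coe.2 (hw y)) hxy
    apply Subtype.ext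
    rw [← hwx x, ← hwx y, h1]
  · intro x
    have h1 := (w x).2
    have h2 : (x : α) = (w x).1.2 := by rw [← hwx x, hpr]
    have h3 : col (w x) = (w x).1.1 := hcol _
    simp only [h3]
    rw [h2]
    exact h1
  · rw [coe_image]
    exact hind
  · intro x y hxy
    have h1 : w x = w y := hT.rowinj (mem_coe.2 (hw x)) (mem_coe.2 (hw y)) hxy
    apply Subtype.ext
    rw [← hwx x, ← hwx y, h1]
  · intro x
    have h1 := hadj (w x).1.1 ⟨(w x).1.2, (w x).2⟩
    have h2 : (x : α) = (w x).1.2 := by rw [← hwx x, hpr]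
    have h3 : row (w x) = g (w x).1.1 ⟨(w x).1.2, (w x).2⟩ := hrow _
    simp only [h3]
    rw [h2]
    exact h1

end Helper64RB3
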