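import Pool.Agent.Helper35_RCM.All

/-!
# Transversal matroids in the criterion of squad RCM (helper64)

Coloured copies: the ground set is replaced by the pairs `(i, x)` with `x ∈ S i`.
-/

set_option autoImplicit false

namespace Helper64RB3

open Set

universe u

/-- admissible values, transversal form -/
def AdmT {α : Type u} (M : Matroid α) (ε : ℝ) (d₀ s d f : ℕ) : Prop :=
  2 * f ≤ 3 * d ∨
    ∃ (R : Type u) (adj : α → R → Prop), Finite R ∧
      (∀ X : Finset α, M.Indep (X : Set α) ↔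
        ∃ h : {x // x ∈ X} → R, Function.Injective h ∧ ∀ x : {x // x ∈ X}, adj (x : α) (h x)) ∧
      (4 * f ≤ d ^ 2 + 3 ∨ (d₀ ≤ d ∧ (f : ℝ) ≤ (1 / 2 - ε) * (d : ℝ) ^ 2) ∨
        (Nat.card R = s ∧ f ≤ d * (d - 1) / 2 + min d 4))

/-- the partition matroid of a map -/
theorem exists_part {β R : Type u} (row : β → R) :
    ∃ M' : Matroid β, ∀ I : Set β, M'.Indep I ↔ InjOn row I := by
  refine ⟨(Matroid.freeOn (Set.univ : Set R)).comap row, fun I => ?_⟩
  rw [Matroid.comap_indep_iff, Matroid.freeOn_indep_iff]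
  exact ⟨fun h => h.2, fun h => ⟨subset_univ _, h⟩⟩

theorem wrap (ε : ℝ) (hε : 0 < ε) :
    ∃ d₀ : ℕ, ∀ (α : Type u) (M N : Matroid α) (m s d f g : ℕ) (S : Fin m → Finset α),
      (∀ i, M.Indep (S i : Set α) ∧ N.Indep (S i : Set α) ∧ s ≤ (S i).card) →
      AdmT M ε d₀ s d f → Pool.Agent.RCM.H35.Adm N ε d₀ s d g →
      (s < m + d ∧ s < d + 3 * d / 2) ∨ (s + 2 ≤ m + d ∧ s < f + g + (m + d - s - 1) * d) →
      ∃ (R : Finset α) (φ : {x // x ∈ R} → Fin m), s < R.card + d ∧ Function.Injective φ ∧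
        (∀ x : {x // x ∈ R}, (x : α) ∈ S (φ x)) ∧ M.Indep (R : Set α) ∧ N.Indep (R : Set α) := by
  classical
  obtain ⟨d₀, hd₀⟩ := Pool.Agent.RCM.H35.main.{u} ε hε
  refine ⟨d₀, fun α M N m s d f g S hS hf hg hc => ?_⟩
  rcases hf with hf | ⟨Q, adj, hQ, hM, hv⟩
  · exact hd₀ α M N m s d f g S hS (Or.inl hf) hg hc
  -- the matchings
  have hmat : ∀ i, ∃ h : {x // x ∈ S i} → Q, Function.Injective h ∧
      ∀ x : {x // x ∈ S i}, adj (x : α) (h x) := fun i => (hM (S i)).1 (hS i).1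
  choose q hq hadj using hmat
  obtain ⟨pr, hpr⟩ : ∃ pr : {p : Fin m × α // p.2 ∈ S p.1} → α, ∀ p, pr p = p.1.2 :=
    ⟨fun p => p.1.2, fun _ => rfl⟩
  obtain ⟨row, hrow⟩ : ∃ row : {p : Fin m × α // p.2 ∈ S p.1} → Q,
      ∀ p, row p = q p.1.1 ⟨p.1.2, p.2⟩ := ⟨fun p => q p.1.1 ⟨p.1.2, p.2⟩, fun _ => rfl⟩
  obtain ⟨emb, hemb⟩ : ∃ emb : ∀ i, {x // x ∈ S i} → {p : Fin m × α // p.2 ∈ S p.1},
      ∀ i e, emb i e = ⟨(i, e.1), e.2⟩ := ⟨fun i e => ⟨(i, e.1), e.2⟩, fun _ _ => rfl⟩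
  obtain ⟨S', hS'⟩ : ∃ S' : Fin m → Finset {p : Fin m × α // p.2 ∈ S p.1},
      ∀ i, S' i = (S i).attach.image (emb i) := ⟨fun i => (S i).attach.image (emb i), fun _ => rfl⟩
  have hembinj : ∀ i, Function.Injective (emb i) := by
    intro i e e' h
    rw [hemb, hemb] at h
    exact Subtype.ext (congrArg (fun p => p.1.2) h)
  have hmem : ∀ i p, p ∈ S' i → ∃ e : {x // x ∈ S i}, emb i e = p := by
    intro i p hp
    rw [hS'] at hp
    obtain ⟨e, _, he⟩ := Finset.mem_image.1 hp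
    exact ⟨e, he⟩
  have hcol : ∀ i p, p ∈ S' i → p.1.1 = i := by
    intro i p hp
    obtain ⟨e, rfl⟩ := hmem i p hp
    rw [hemb]
  obtain ⟨M', hM'⟩ := exists_part row
  have hN' : ∀ I : Set {p : Fin m × α // p.2 ∈ S p.1},
      (N.comap pr).Indep I ↔ N.Indep (pr '' I) ∧ InjOn pr I := fun I => Matroid.comap_indep_iff
  obtain ⟨R', φ', h1, h2, h3, h4, h5⟩ := hd₀ {p : Fin m × α // p.2 ∈ S p.1} M' (N.comap pr)
    m s d f g S' (by
      intro i
      refine ⟨?_, ?_, ?_⟩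
      · rw [hM']
        intro x hx y hy hxy
        obtain ⟨e, rfl⟩ := hmem i x (Finset.mem_coe.1 hx)
        obtain ⟨e', rfl⟩ := hmem i y (Finset.mem_coe.1 hy)
        rw [hrow, hrow, hemb, hemb] at hxy
        have h6 : e = e' := hq i hxy
        rw [h6]
      · rw [hN']
        constructor
        · refine (hS i).2.1.subset ?_
          rintro _ ⟨p, hp, rfl⟩
          obtain ⟨e, rfl⟩ := hmem i p (Finset.mem_coe.1 hp)
          rw [hpr, hemb]
          exact e.2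
        · intro x hx y hy hxy
          obtain ⟨e, rfl⟩ := hmem i x (Finset.mem_coe.1 hx)
          obtain ⟨e', rfl⟩ := hmem i y (Finset.mem_coe.1 hy)
          rw [hpr, hpr, hemb, hemb] at hxy
          have h6 : e = e' := Subtype.ext hxy
          rw [h6]
      · rw [hS', Finset.card_image_of_injective _ (hembinj i), Finset.card_attach]
        exact (hS i).2.2)
    (Or.inr ⟨Q, row, hQ, hM', hv⟩)
    (by
      rcases hg with hg | ⟨Q2, r2, hQ2, hr2, hv2⟩
      · exact Or.inl hg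
      · refine Or.inr ⟨Q2, fun p => r2 (pr p), hQ2, fun I => ?_, hv2⟩
        rw [hN', hr2]
        constructor
        · rintro ⟨h6, h7⟩ x hx y hy hxy
          exact h7 hx hy (h6 (mem_image_of_mem _ hx) (mem_image_of_mem _ hy) hxy)
        · intro h6
          constructor
          · rintro _ ⟨x, hx, rfl⟩ _ ⟨y, hy, rfl⟩ hxy
            rw [h6 hx hy hxy]
          · intro x hx y hy hxy
            apply h6 hx hy
            show r2 (pr x) = r2 (pr y)
            rw [hxy])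
    hc
  rw [hM'] at h4
  obtain ⟨h5a, h5b⟩ := (hN' _).1 h5
  have hφ' : ∀ x : {x // x ∈ R'}, φ' x = (x : {p : Fin m × α // p.2 ∈ S p.1}).1.1 :=
    fun x => (hcol _ _ (h3 x)).symm
  have hex : ∀ x : {x // x ∈ R'.image pr}, ∃ p, p ∈ R' ∧ pr p = x := by
    intro x
    obtain ⟨p, hp, hpx⟩ := Finset.mem_image.1 x.2
    exact ⟨p, hp, hpx⟩
  choose w hw hwx using hex
  refine ⟨R'.image pr, fun x => φ' ⟨w x, hw x⟩, ?_, ?_, ?_, ?_, ?_⟩
  · rw [Finset.card_image_of_injOn h5b]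
    exact h1
  · intro x y hxy
    have h6 := congrArg Subtype.val (h2 hxy)
    have h7 : w x = w y := h6
    apply Subtype.ext
    rw [← hwx x, ← hwx y, h7]
  · intro x
    show (x : α) ∈ S (φ' ⟨w x, hw x⟩)
    rw [hφ', ← hwx x, hpr]
    exact (w x).2
  · rw [hM]
    refine ⟨fun x => row (w x), ?_, ?_⟩
    · intro x y hxy
      have h7 : w x = w y := h4 (hw x) (hw y) hxy
      apply Subtype.ext
      rw [← hwx x, ← hwx y, h7]
    · intro x
      show adj (x : α) (row (w x))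
      rw [hrow, ← hwx x, hpr]
      exact hadj _ ⟨(w x).1.2, (w x).2⟩
  · rw [Finset.coe_image]
    exact h5a

end Helper64RB3
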